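import Pool.Agent.Lib.H40C.F2Defs
import Pool.Agent.Lib.H53P.TZ

set_option autoImplicit false

namespace H40C

open H53P SimpleDraw

/-- (F2A) planarity.
PROOF.  As in `H53P.fin1_cycle` (file Lib/H53P/FIN1.lean): let `p` be a common point of the two edges.  If
the edges have a common vertex, `D.inter` (see `fin1_cycle`, `tf3_mem`) gives `p = D.pt v'`; otherwise the
four vertices are distinct and `X D a b c d = false`: both edges at `v` is impossible, exactly one at `v`:
`h3` (with symmetries `(table D).symm1, symm2`), none at `v`: `h4`; so the curves do not meet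
(definition of `X`). -/
theorem starPath_plane {n : ℕ} (D : SimpleDrawing n) (v : Fin n) (P : List (Fin n))
    (h3 : ∀ e ∈ edges P, ∀ w, (table D).X e.1 e.2 v w = false)
    (h4 : (table D).Plane (edges P)) : D.Plane (starPath v P) := by
  intro a b c d hab hcd hne p hp
  have hab' : a ≠ b := hab.ne
  have hcd' : c ≠ d := hcd.ne
  have hsub := D.inter a b c d hab' hcd' hne
  have m1 := tf3_mem D hab'
  have m2 := tf3_mem D hcd'
  by_cases e1 : a = c
  · subst e1
    exact ⟨a, Or.inl rfl, Or.inl rfl, hsub hp ⟨m1.1, m2.1⟩⟩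
  by_cases e2 : a = d
  · subst e2
    exact ⟨a, Or.inl rfl, Or.inr rfl, hsub hp ⟨m1.1, m2.2⟩⟩
  by_cases e3 : b = c
  · subst e3
    exact ⟨b, Or.inr rfl, Or.inl rfl, hsub hp ⟨m1.2, m2.1⟩⟩
  by_cases e4 : b = d
  · subst e4
    exact ⟨b, Or.inr rfl, Or.inr rfl, hsub hp ⟨m1.2, m2.2⟩⟩
  exfalso
  have s1 := (table D).symm1
  have s2 := (table D).symm2
  have h3' : ∀ x y w, (x, y) ∈ edges P → (table D).X x y v w = false := fun x y w h => h3 _ h w
  have h4' : ∀ x y z w, (x, y) ∈ edges P → (z, w) ∈ edges P → (table D).X x y z w = false :=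
    fun x y z w h h' => h4 _ h _ h'
  have key : ∀ a b c d : Fin n, a ≠ c → (a = v ∨ (a, b) ∈ edges P) →
      (c = v ∨ (c, d) ∈ edges P) → (table D).X a b c d = false := by
    intro a b c d hac h h'
    rcases h with h | h
    · rcases h' with h' | h'
      · exact absurd (h.trans h'.symm) hac
      · rw [s2, h]
        exact h3' c d b h'
    · rcases h' with h' | h'
      · rw [h']
        exact h3' a b d h
      · exact h4' a b c d h h'
  have hX : (table D).X a b c d = false := by
    obtain ⟨-, hab2⟩ := (SimpleGraph.fromRel_adj _ _ _).1 hab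
    obtain ⟨-, hcd2⟩ := (SimpleGraph.fromRel_adj _ _ _).1 hcd
    rcases hab2 with h | h <;> rcases hcd2 with h' | h'
    · exact key a b c d e1 h h'
    · rw [s2, s1, s2]
      exact key a b d c e2 h h'
    · rw [s1]
      exact key b a c d e3 h h'
    · rw [s1, s2, s1, s2]
      exact key b a d c e4 h h'
  have hX' : X D a b c d = false := hX
  unfold X at hX'
  rw [decide_eq_false_iff_not] at hX'
  exact hX' ⟨hab', hcd', e1, e2, e3, e4, ⟨p, hp⟩⟩

end H40C
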