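import Pool.Agent.Lib.H40C.F2Defs

set_option autoImplicit false

namespace H40C

open H53P

theorem f2b_mem {V : Type*} (l : List V) (e : V × V) (h : e ∈ edges l) : e.1 ∈ l ∧ e.2 ∈ l := by
  obtain ⟨a, b⟩ := e
  obtain ⟨h1, h2⟩ := List.of_mem_zip h
  exact ⟨h1, List.mem_of_mem_tail h2⟩

theorem f2b_ne {V : Type*} : ∀ (l : List V), l.Nodup → ∀ e ∈ edges l, e.1 ≠ e.2
  | [], _, e, he => by simp [edges] at he
  | [a], _, e, he => by simp [edges] at he
  | a :: b :: l, hnd, e, he => by
    have h1 : edges (a :: b :: l) = (a, b) :: edges (b :: l) := rfl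
    rw [h1, List.mem_cons] at he
    rcases he with rfl | he
    · rintro h
      simp only at h
      rw [List.nodup_cons] at hnd
      exact hnd.1 (h ▸ List.mem_cons_self ..)
    · exact f2b_ne (b :: l) (List.nodup_cons.1 hnd).2 e he

theorem f2b_card {V : Type*} [DecidableEq V] : ∀ (l : List V), l.Nodup →
    (((edges l).map fun e => s(e.1, e.2)).toFinset).card = l.length - 1
  | [], _ => by simp [edges]
  | [a], _ => by simp [edges]
  | a :: b :: l, hnd => by
    have h1 : edges (a :: b :: l) = (a, b) :: edges (b :: l) := rfl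
    have ih := f2b_card (b :: l) (List.nodup_cons.1 hnd).2
    rw [h1, List.map_cons, List.toFinset_cons, Finset.card_insert_of_notMem, ih]
    · simp
    · intro hmem
      rw [List.mem_toFinset, List.mem_map] at hmem
      obtain ⟨e, he, hes⟩ := hmem
      obtain ⟨h2, h3⟩ := f2b_mem _ e he
      have h4 : a ∉ b :: l := (List.nodup_cons.1 hnd).1
      rw [Sym2.eq_iff] at hes
      rcases hes with ⟨h5, h6⟩ | ⟨h5, h6⟩
      · have h7 : e.1 = a := h5
        exact h4 (by rw [← h7]; exact h2)
      · have h7 : e.2 = a := h6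
        exact h4 (by rw [← h7]; exact h3)

/-- (F2B) number of edges.
PROOF.  `edgeSet = {s(v, w) | w ≠ v} ∪ {s(i, j) | (i, j) ∈ edges P}`, disjoint (`v ∉ P`); the first set has
`n - 1` elements, the second `P.length - 1 = n - 2` (`P` is nodup: the pairs `s(P[i], P[i+1])` are
different). -/
theorem starPath_card {n : ℕ} (hn : 3 ≤ n) (v : Fin n) (P : List (Fin n)) (hnd : P.Nodup)
    (hmem : ∀ w, w ∈ P ↔ w ≠ v) : (starPath v P).edgeSet.ncard = 2 * n - 3 := by
  classical
  have hlen : P.length = n - 1 := by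
    have h1 : P.toFinset = Finset.univ.erase v := by
      ext w
      simp [hmem]
    have h2 := List.toFinset_card_of_nodup hnd
    rw [h1, Finset.card_erase_of_mem (Finset.mem_univ _), Finset.card_univ, Fintype.card_fin] at h2
    exact h2.symm
  set S : Finset (Sym2 (Fin n)) := (Finset.univ.erase v).image fun w => s(v, w) with hS
  set T : Finset (Sym2 (Fin n)) := ((edges P).map fun e => s(e.1, e.2)).toFinset with hT
  have hScard : S.card = n - 1 := by
    rw [hS, Finset.card_image_of_injOn, Finset.card_erase_of_mem (Finset.mem_univ _), Finset.card_univ,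
      Fintype.card_fin]
    intro a _ b _ h
    simp only at h
    rw [Sym2.eq_iff] at h
    rcases h with ⟨_, h⟩ | ⟨h1, h2⟩
    · exact h
    · rw [← h1, h2]
  have hTcard : T.card = n - 2 := by
    rw [hT, f2b_card P hnd, hlen]
    omega
  have hdisj : Disjoint S T := by
    rw [Finset.disjoint_left]
    intro x hx hx'
    rw [hS, Finset.mem_image] at hx
    obtain ⟨w, -, rfl⟩ := hx
    rw [hT, List.mem_toFinset, List.mem_map] at hx'
    obtain ⟨e, he, hes⟩ := hx'
    obtain ⟨h2, h3⟩ := f2b_mem _ e he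
    rw [hmem] at h2 h3
    rw [Sym2.eq_iff] at hes
    rcases hes with ⟨h5, h6⟩ | ⟨h5, h6⟩
    · exact h2 h5
    · exact h3 h6
  have hset : (starPath v P).edgeSet = ↑(S ∪ T) := by
    ext x
    induction x using Sym2.ind with
    | _ a b =>
      rw [SimpleGraph.mem_edgeSet, starPath, SimpleGraph.fromRel_adj, Finset.mem_coe, Finset.mem_union, hS,
        hT, Finset.mem_image, List.mem_toFinset, List.mem_map]
      constructor
      · rintro ⟨hab, (rfl | h) | (rfl | h)⟩
        · exact Or.inl ⟨b, Finset.mem_erase.2 ⟨fun h => hab h.symm, Finset.mem_univ _⟩, rfl⟩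
        · exact Or.inr ⟨(a, b), h, rfl⟩
        · exact Or.inl ⟨a, Finset.mem_erase.2 ⟨hab, Finset.mem_univ _⟩, Sym2.eq_swap⟩
        · exact Or.inr ⟨(b, a), h, Sym2.eq_swap⟩
      · rintro (⟨w, hw, h⟩ | ⟨e, he, h⟩)
        · have hw' := (Finset.mem_erase.1 hw).1
          rw [Sym2.eq_iff] at h
          rcases h with ⟨rfl, rfl⟩ | ⟨rfl, rfl⟩
          · exact ⟨fun h => hw' h.symm, Or.inl (Or.inl rfl)⟩
          · exact ⟨hw', Or.inr (Or.inl rfl)⟩
        · have hne := f2b_ne P hnd e he
          rw [Sym2.eq_iff] at h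
          rcases h with ⟨rfl, rfl⟩ | ⟨rfl, rfl⟩
          · exact ⟨hne, Or.inl (Or.inr he)⟩
          · exact ⟨fun h => hne h.symm, Or.inr (Or.inr he)⟩
  rw [hset, Set.ncard_coe_finset, Finset.card_union_of_disjoint hdisj, hScard, hTcard]
  omega

end H40C
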