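import Pool.Agent.Lib.H40C.F2Defs
import Pool.Agent.SimpleDraw.Ham

set_option autoImplicit false

namespace H40C

open H53P SimpleDraw

theorem f2c_chain {n : ℕ} (v : Fin n) (P : List (Fin n)) : ∀ l : List (Fin n), l.Nodup →
    (∀ e ∈ edges l, e ∈ edges P) → l.IsChain (starPath v P).Adj
  | [], _, _ => List.IsChain.nil
  | [_], _, _ => List.IsChain.singleton _
  | x :: y :: l, hnd, h => by
      rw [List.isChain_cons_cons]
      refine ⟨?_, f2c_chain v P (y :: l) (List.nodup_cons.1 hnd).2 fun e he => h e ?_⟩
      · have hxy : x ≠ y := by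
          intro hxy
          subst hxy
          exact (List.nodup_cons.1 hnd).1 List.mem_cons_self
        have h1 : (x, y) ∈ edges P := h (x, y) (by simp [edges])
        exact ⟨hxy, Or.inl (Or.inr h1)⟩
      · change e ∈ (x, y) :: edges (y :: l)
        exact List.mem_cons_of_mem _ he

/-- (F2C) PROOF.  `SimpleDraw.ham_of_list` with the list `v :: P` (`P.length = n - 1`; consecutive elements
of `P` are pairs of `edges P` and different by `Nodup`; head and last element of `P` are `≠ v`). -/
theorem starPath_ham {n : ℕ} (hn : 3 ≤ n) (v : Fin n) (P : List (Fin n)) (hnd : P.Nodup)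
    (hmem : ∀ w, w ∈ P ↔ w ≠ v) :
    ∃ (a : Fin n) (c : (starPath v P).Walk a a), c.IsHamiltonianCycle := by
  have hlen : P.length = n - 1 := by
    rw [← List.toFinset_card_of_nodup hnd]
    have h1 : P.toFinset = Finset.univ.erase v := by
      ext w
      simp [hmem w]
    rw [h1, Finset.card_erase_of_mem (Finset.mem_univ v), Finset.card_univ, Fintype.card_fin]
  have hv : v ∉ P := fun h => (hmem v).1 h rfl
  have hne : P ≠ [] := by
    intro h
    rw [h] at hlen
    simp at hlen
    omega
  obtain ⟨x, l, hP⟩ := List.exists_cons_of_ne_nil hne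
  have hxv : x ≠ v := (hmem x).1 (by rw [hP]; exact List.mem_cons_self)
  refine ham_of_list (v :: P) ?_ ?_ ?_ ?_ (a := v) (b := P.getLast hne) rfl ?_ ?_
  · rw [List.length_cons, hlen]
    omega
  · exact List.nodup_cons.2 ⟨hv, hnd⟩
  · intro w
    by_cases hw : w = v
    · rw [hw]
      exact List.mem_cons_self
    · exact List.mem_cons_of_mem _ ((hmem w).2 hw)
  · rw [hP, List.isChain_cons_cons, ← hP]
    exact ⟨⟨hxv.symm, Or.inl (Or.inl rfl)⟩, f2c_chain v P P hnd fun e he => he⟩
  · rw [List.getLast?_cons, List.getLast?_eq_some_getLast hne]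
    rfl
  · exact ⟨(hmem _).1 (List.getLast_mem hne), Or.inr (Or.inl rfl)⟩

end H40C
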