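import Pool.Agent.Lib.H40C.F1
import Pool.Agent.Lib.H40C.F2A
import Pool.Agent.Lib.H40C.F2B
import Pool.Agent.Lib.H40C.F2C

set_option autoImplicit false

namespace H40C

open H53P SimpleDraw

/-- (F2) the drawing.  `P` from `table_main (table D)`, `G = starPath v P`. -/
theorem final {n : ℕ} (hn : 3 ≤ n) (D : SimpleDrawing n) (v : Fin n)
    (hv : GoodV (table D) v) : ∃ G : SimpleGraph (Fin n), D.Plane G ∧
      (∀ w, w ≠ v → G.Adj v w) ∧ G.edgeSet.ncard = 2 * n - 3 ∧
      ∃ (a : Fin n) (c : G.Walk a a), c.IsHamiltonianCycle := by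
  obtain ⟨P, h1, h2, h3, h4⟩ := table_main (table D) (by simpa using hn) hv
  exact ⟨starPath v P, starPath_plane D v P h3 h4,
    fun w hw => by
      rw [starPath, SimpleGraph.fromRel_adj]
      exact ⟨fun h => hw h.symm, Or.inl (Or.inl rfl)⟩,
    starPath_card hn v P h1 h2, starPath_ham hn v P h1 h2⟩

end H40C
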