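import Mathlib
import Pool.Agent.Lib.H53P.C0

/-! # H40C, definitions: star systems

`C i j k` (`i, j, k : ℤ`, all arguments modulo `m`) means: the edge `x i x j` crosses the edge
`v x k`, where `x 0, …, x (m-1)` are the other vertices in the cyclic order of the rotation at `v`.
For a base `b` and `b < p < q < b + m` we write `U b p q` for `C b p q` and `D b p q` for
`C b q p`. -/

set_option autoImplicit false

namespace H40C

open H53P

/-- star systems (all arguments modulo `m`) -/
structure Sys (m : ℤ) (C : ℤ → ℤ → ℤ → Prop) : Prop where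
  pos : 0 < m
  symm : ∀ i j k, C i j k → C j i k
  per : ∀ i j k, C (i + m) j k ↔ C i j k
  per3 : ∀ i j k, C i j (k + m) ↔ C i j k
  ne : ∀ i j k, C i j k → ¬ m ∣ i - j ∧ ¬ m ∣ i - k ∧ ¬ m ∣ j - k
  one : ∀ i j k, C i j k → ¬ C i k j
  /-- no mixing of `U` and `D` -/
  mix : ∀ b x y z, b < x → x < y → y < z → z < b + m →
    ¬ ((C b x y ∨ C b x z ∨ C b y z) ∧ (C b y x ∨ C b z x ∨ C b z y))
  coU : ∀ b x y z, b < x → x < y → y < z → z < b + m → C b x z → C b x y ∨ C b y z
  coD : ∀ b x y z, b < x → x < y → y < z → z < b + m → C b z x → C b y x ∨ C b z y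
  opp : ∀ b x y z, b < x → x < y → y < z → z < b + m → C b x y → ¬ C y z b

/-- the short edge `x a x (a+1)` crosses some edge at `v` -/
def Bad (C : ℤ → ℤ → ℤ → Prop) (a : ℤ) : Prop := ∃ w, C a (a + 1) w

/-- the edge `x i x j` crosses no edge at `v` -/
def Gd (C : ℤ → ℤ → ℤ → Prop) (i j : ℤ) : Prop := ∀ k, ¬ C i j k

/-- `y` is touched by a relation `U b` -/
def TU (m : ℤ) (C : ℤ → ℤ → ℤ → Prop) (b y : ℤ) : Prop :=
  ∃ z, b < z ∧ z < b + m ∧ ((y < z ∧ C b y z) ∨ (z < y ∧ C b z y))

/-- `y` is touched by a relation `D b` -/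
def TD (m : ℤ) (C : ℤ → ℤ → ℤ → Prop) (b y : ℤ) : Prop :=
  ∃ z, b < z ∧ z < b + m ∧ ((y < z ∧ C b z y) ∨ (z < y ∧ C b y z))

/-- the arc `Q = [a+1, c]` between the bad short edges `(a, a+1)` and `(c, c+1)` contains all
witnesses and no bad short edge -/
structure Arc (m : ℤ) (C : ℤ → ℤ → ℤ → Prop) (a c : ℤ) : Prop where
  lt : a < c
  lt' : c < a + m
  wa : ∃ w, a + 1 < w ∧ w < c ∧ C a (a + 1) w
  wc : ∃ u, a + 1 + m < u ∧ u < c + m ∧ C c (c + 1) u
  good : ∀ d, a < d → d < c → ¬ Bad C d

/-- the list (newest element first) was built by adding new elements outside of the hull -/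
def Nest : List ℤ → Prop
  | [] => True
  | x :: L => ((∀ p ∈ L, x < p) ∨ (∀ p ∈ L, p < x)) ∧ Nest L

/-- `L` is a path through all integers of `[lo, hi]`, with current end-vertex `cur` (the head),
built outwards -/
structure PathOn (G : ℤ → ℤ → Prop) (lo hi cur : ℤ) (L : List ℤ) : Prop where
  mem : ∀ z, z ∈ L ↔ lo ≤ z ∧ z ≤ hi
  head : L.head? = some cur
  chain : L.IsChain G
  nest : Nest L

/-- the condition on the vertex `v`: no edge of a `K_5` at `v` crosses all three sides of the
opposite triangle, and if `bp` crosses `vq` and `bq` crosses `vr`, then `bp` crosses `vr` -/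
def GoodV {V : Type*} (T : Table V) (v : V) : Prop :=
  (∀ a b c d e, [a, b, c, d, e].Nodup → v ∈ [a, b, c, d, e] →
    ¬ (T.X a b c d = true ∧ T.X a b d e = true ∧ T.X a b c e = true)) ∧
  ∀ b p q r, T.X b p v q = true → T.X b q v r = true → T.X b p v r = true

/-- periodic enumeration of the vertices other than `v` in the order of the rotation at `v` -/
structure Enum {V : Type*} (T : Table V) (v : V) (m : ℤ) (x : ℤ → V) : Prop where
  pos : 0 < m
  ne : ∀ i, x i ≠ v
  eq_iff : ∀ i j, x i = x j ↔ m ∣ i - j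
  surj : ∀ w, w ≠ v → ∃ i, x i = w
  alt1 : ∀ i j k l, i < j → j < k → k < l → l < i + m → altX T.X v (x i) (x k) (x j) (x l) = true
  alt0 : ∀ i j k l, i < j → j < k → k < l → l < i + m → altX T.X v (x i) (x j) (x k) (x l) = false
  alt0' : ∀ i j k l, i < j → j < k → k < l → l < i + m →
    altX T.X v (x i) (x l) (x j) (x k) = false

end H40C
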