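import Pool.Agent.Lib.H40C.F1A

set_option autoImplicit false

namespace H40C

open H53P

variable {V : Type*} (T : Table V)

theorem f1b_mem_edges {L : List ℤ} {x : ℤ → V} {e : V × V} (he : e ∈ edges (L.map x)) :
    ∃ p q : ℤ, (p, q) ∈ L.zip L.tail ∧ e = (x p, x q) := by
  unfold edges at he
  rw [← List.map_tail, List.zip_map] at he
  rcases List.mem_map.1 he with ⟨⟨p, q⟩, hpq, rfl⟩
  exact ⟨p, q, hpq, rfl⟩

theorem f1b_gd {C : ℤ → ℤ → ℤ → Prop} : ∀ {L : List ℤ}, L.IsChain (Gd C) → ∀ {p q : ℤ},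
    (p, q) ∈ L.zip L.tail → Gd C p q
  | [], _, p, q, h => by simp at h
  | [a], _, p, q, h => by simp at h
  | a :: b :: L, hc, p, q, h => by
    have hc' := List.isChain_cons_cons.1 hc
    simp only [List.tail_cons, List.zip_cons_cons, List.mem_cons, Prod.mk.injEq] at h
    rcases h with ⟨rfl, rfl⟩ | h
    · exact hc'.1
    · exact f1b_gd hc'.2 h

theorem f1b_mem {L : List ℤ} {p q : ℤ} (h : (p, q) ∈ L.zip L.tail) : p ∈ L ∧ q ∈ L := by
  have h1 := List.of_mem_zip h
  exact ⟨h1.1, List.mem_of_mem_tail h1.2⟩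

theorem f1b_ne : ∀ {L : List ℤ}, Nest L → ∀ {p q : ℤ}, (p, q) ∈ L.zip L.tail → p ≠ q
  | [], _, p, q, h => by simp at h
  | [a], _, p, q, h => by simp at h
  | a :: b :: L, hc, p, q, h => by
    simp only [List.tail_cons, List.zip_cons_cons, List.mem_cons, Prod.mk.injEq] at h
    rcases h with ⟨rfl, rfl⟩ | h
    · rcases hc.1 with h1 | h1
      · exact (h1 q (by simp)).ne
      · exact (h1 q (by simp)).ne'
    · exact f1b_ne hc.2 h

theorem f1b_tail {y : ℤ} {L : List ℤ} {p q : ℤ} (h : (p, q) ∈ (y :: L).zip L)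
    (hy : p ≠ y) : p ∈ L ∧ q ∈ L := by
  have h1 := List.of_mem_zip h
  refine ⟨?_, h1.2⟩
  rcases List.mem_cons.1 h1.1 with h2 | h2
  · exact absurd h2 hy
  · exact h2

/-- the new edge against an old one -/
theorem f1b_step {v : V} {m : ℤ} {x : ℤ → V} (hx : Enum T v m x) {s z y : ℤ} {L : List ℤ}
    (hc : (z :: y :: L).IsChain (Gd fun i j k => T.X (x i) (x j) v (x k) = true))
    (hn : Nest (z :: y :: L)) (hs : ∀ i ∈ z :: y :: L, s ≤ i ∧ i < s + m) {p q : ℤ}
    (h : (p, q) ∈ (y :: L).zip L) : T.X (x z) (x y) (x p) (x q) = false := by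
  by_cases hpy : p = y
  · subst hpy
    by_contra hX
    rw [Bool.not_eq_false] at hX
    exact (T.ne _ _ _ _ hX).2.2.2.2.1 rfl
  obtain ⟨hp, hq⟩ := f1b_tail h hpy
  have hpq : p ≠ q := f1b_ne (L := y :: L) hn.2 (by simpa using h)
  have hz : (z < p ∧ z < q) ∨ (p < z ∧ q < z) := by
    rcases hn.1 with h1 | h1
    · exact Or.inl ⟨h1 p (by simp [hp]), h1 q (by simp [hq])⟩
    · exact Or.inr ⟨h1 p (by simp [hp]), h1 q (by simp [hq])⟩
  have hy : (y < p ∧ y < q) ∨ (p < y ∧ q < y) := by
    rcases hn.2.1 with h1 | h1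
    · exact Or.inl ⟨h1 p hp, h1 q hq⟩
    · exact Or.inr ⟨h1 p hp, h1 q hq⟩
  have hyz : y ≠ z := by
    rcases hn.1 with h1 | h1
    · exact (h1 y (by simp)).ne'
    · exact (h1 y (by simp)).ne
  have hA := alt_outside T hx hpq hyz hz hy (s := s) (by
    intro i hi
    simp only [List.mem_cons, List.not_mem_nil, or_false] at hi
    rcases hi with rfl | rfl | rfl | rfl
    · exact hs _ (by simp [hp])
    · exact hs _ (by simp [hq])
    · exact hs _ (by simp)
    · exact hs _ (by simp))
  have g1 : Gd (fun i j k => T.X (x i) (x j) v (x k) = true) z y := f1b_gd hc (by simp)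
  have g2 : Gd (fun i j k => T.X (x i) (x j) v (x k) = true) p q :=
    f1b_gd (List.isChain_cons_cons.1 hc).2 (by simpa using h)
  have e1 : T.X v (x p) (x z) (x y) = false := by
    rw [T.symm2]
    simpa using g1 p
  have e2 : T.X v (x q) (x z) (x y) = false := by
    rw [T.symm2]
    simpa using g1 q
  have e3 : T.X (x p) (x q) v (x z) = false := by simpa using g2 z
  have e4 : T.X (x p) (x q) v (x y) = false := by simpa using g2 y
  unfold altX at hA
  rw [e1, e2, e3, e4] at hA
  rw [T.symm2]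
  simpa using hA

theorem f1b_main {v : V} {m : ℤ} {x : ℤ → V} (hx : Enum T v m x) {s : ℤ} : ∀ {L : List ℤ},
    L.IsChain (Gd fun i j k => T.X (x i) (x j) v (x k) = true) → Nest L →
    (∀ i ∈ L, s ≤ i ∧ i < s + m) → ∀ {p q p' q' : ℤ}, (p, q) ∈ L.zip L.tail →
    (p', q') ∈ L.zip L.tail → T.X (x p) (x q) (x p') (x q') = false
  | [], _, _, _, p, q, p', q', h, _ => by simp at h
  | [a], _, _, _, p, q, p', q', h, _ => by simp at h
  | z :: y :: L, hc, hn, hs, p, q, p', q', h, h' => by
    simp only [List.tail_cons, List.zip_cons_cons, List.mem_cons, Prod.mk.injEq] at h h'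
    rcases h with ⟨rfl, rfl⟩ | h <;> rcases h' with ⟨rfl, rfl⟩ | h'
    · by_contra hX
      rw [Bool.not_eq_false] at hX
      exact (T.ne _ _ _ _ hX).2.2.1 rfl
    · exact f1b_step T hx hc hn hs h'
    · rw [T.symm2]
      exact f1b_step T hx hc hn hs h
    · exact f1b_main hx (List.isChain_cons_cons.1 hc).2 hn.2
        (fun i hi => hs i (List.mem_cons_of_mem _ hi)) (L := y :: L) (by simpa using h)
        (by simpa using h')

/-- (F1B) two edges of a path built outwards do not cross.
PROOF.  Let `C = fun i j k => T.X (x i) (x j) v (x k) = true`.  Induction on `L` (generalise: only `chain`,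
`nest` and all elements in `[p, p+m-1]` are used): for `z :: y :: L'` and an edge `(p', q')` of `y :: L'`
(consecutive elements): if `p'` or `q'` is `y`, the edges share a vertex, `T.ne`.  Otherwise `p', q' ∈ L'`,
and `z`, `y` are outside of the hull of `L'` (`Nest`), so `alt_outside` gives
`altX v (x p') (x q') (x z) (x y) = false`; the four crossings of the two edges with the star vanish
(`Gd`), so `T.X (x p') (x q') (x z) (x y) = false`.  (`edges` of a mapped list: `List.zip_map'`/`map_tail`.) -/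
theorem plane_path {v : V} {m : ℤ} {x : ℤ → V} (hx : Enum T v m x) {p cur : ℤ} {L : List ℤ}
    (hL : PathOn (Gd fun i j k => T.X (x i) (x j) v (x k) = true) p (p + m - 1) cur L) :
    T.Plane (edges (L.map x)) := by
  intro e he f hf
  obtain ⟨a, b, hab, rfl⟩ := f1b_mem_edges he
  obtain ⟨c, d, hcd, rfl⟩ := f1b_mem_edges hf
  exact f1b_main T hx (s := p) hL.chain hL.nest (fun i hi => by
    have := (hL.mem i).1 hi
    omega) hab hcd

end H40C
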