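import Pool.Agent.Lib.H40C.K1

set_option autoImplicit false

namespace H40C

open H53P

variable {V : Type*} (T : Table V)

private theorem k2_local {v : V} {m : ℤ} {x : ℤ → V} (hx : Enum T v m x) (hv : GoodV T v)
    (b x' y z : ℤ) (h1 : b < x') (h2 : x' < y) (h3 : y < z) (h4 : z < b + m) :
    ¬ ((T.X (x b) (x x') v (x y) = true ∨ T.X (x b) (x x') v (x z) = true ∨
        T.X (x b) (x y) v (x z) = true) ∧
      (T.X (x b) (x y) v (x x') = true ∨ T.X (x b) (x z) v (x x') = true ∨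
        T.X (x b) (x z) v (x y) = true)) ∧
    (T.X (x b) (x x') v (x z) = true → T.X (x b) (x x') v (x y) = true ∨
      T.X (x b) (x y) v (x z) = true) ∧
    (T.X (x b) (x z) v (x x') = true → T.X (x b) (x y) v (x x') = true ∨
      T.X (x b) (x z) v (x y) = true) ∧
    (T.X (x b) (x x') v (x y) = true → ¬ T.X (x y) (x z) v (x b) = true) := by
  have hne : ∀ i j : ℤ, i < j → j < i + m → x i ≠ x j := by
    intro i j hij hjm h
    obtain ⟨k, hk⟩ := (hx.eq_iff i j).1 h
    have hm := hx.pos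
    have hk1 : m * (-k) < m * 1 := by linarith
    have hk2 : m * 0 < m * (-k) := by linarith
    have h5 := lt_of_mul_lt_mul_left hk1 hm.le
    have h6 := lt_of_mul_lt_mul_left hk2 hm.le
    omega
  apply local5 T (v := v) (a := x b) (b := x x') (c := x y) (d := x z) _
    (hx.alt1 b x' y z h1 h2 h3 h4) (hx.alt0 b x' y z h1 h2 h3 h4)
    (hx.alt0' b x' y z h1 h2 h3 h4) hv
  simp only [List.nodup_cons, List.mem_cons, List.not_mem_nil, not_or, or_false,
    List.nodup_nil, and_true, not_false_eq_true]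
  exact ⟨⟨Ne.symm (hx.ne _), Ne.symm (hx.ne _), Ne.symm (hx.ne _), Ne.symm (hx.ne _)⟩,
    ⟨hne _ _ h1 (by linarith), hne _ _ (by linarith) (by linarith),
      hne _ _ (by linarith) (by linarith)⟩,
    ⟨hne _ _ h2 (by linarith), hne _ _ (by linarith) (by linarith)⟩,
    hne _ _ h3 (by linarith)⟩

/-- (K2) the star system of a good vertex.
PROOF.  `symm`: `T.symm1`.  `per`, `per3`: `x (i + m) = x i` (`eq_iff`).  `ne`: `T.ne` and `eq_iff`.
`one`: `C i j k`, i.e. `X (x i) (x j) v (x k)`, and `C i k j`, i.e. `X (x i) (x k) v (x j)`: `T.one` for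
`(x j, x i, v, x k)`... use `symm1, symm2, one`.  `mix`, `coU`, `coD`, `opp`: `local5` for
`a = x b, b = x x', c = x y, d = x z` with `alt1, alt0, alt0'`; distinctness from `eq_iff`
(`b < x' < y < z < b + m`). -/
theorem sys_of_enum {v : V} {m : ℤ} {x : ℤ → V} (hx : Enum T v m x) (hv : GoodV T v) :
    Sys m (fun i j k => T.X (x i) (x j) v (x k) = true) := by
  have hp : ∀ i, x (i + m) = x i := fun i => (hx.eq_iff _ _).2 (by simp)
  refine ⟨hx.pos, ?_, ?_, ?_, ?_, ?_, ?_, ?_, ?_, ?_⟩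
  · intro i j k h
    rw [T.symm1]
    exact h
  · intro i j k
    simp only [hp]
  · intro i j k
    simp only [hp]
  · intro i j k h
    obtain ⟨h1, _, _, h4, _, h6⟩ := T.ne _ _ _ _ h
    exact ⟨fun hd => h1 ((hx.eq_iff _ _).2 hd), fun hd => h4 ((hx.eq_iff _ _).2 hd),
      fun hd => h6 ((hx.eq_iff _ _).2 hd)⟩
  · intro i j k h h'
    have h1 : T.X (x i) (x j) (x k) v = true := by rw [symm3]; exact h
    have h2 := T.one _ _ _ _ h1
    rw [symm3] at h2
    rw [h2] at h'
    exact Bool.false_ne_true h'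
  · intro b x' y z h1 h2 h3 h4
    exact (k2_local T hx hv b x' y z h1 h2 h3 h4).1
  · intro b x' y z h1 h2 h3 h4
    exact (k2_local T hx hv b x' y z h1 h2 h3 h4).2.1
  · intro b x' y z h1 h2 h3 h4
    exact (k2_local T hx hv b x' y z h1 h2 h3 h4).2.2.1
  · intro b x' y z h1 h2 h3 h4
    exact (k2_local T hx hv b x' y z h1 h2 h3 h4).2.2.2

end H40C
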