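import Pool.Agent.Lib.H40C.R1A

set_option autoImplicit false

namespace H40C

open H53P

private theorem r1_mod (m : ℤ) (hm : 0 < m) (i j : ℤ) (h1 : i < j) (h2 : j < i + m) :
    j % m = i % m + (j - i) ∨ j % m = i % m + (j - i) - m := by
  have a1 := Int.emod_nonneg i hm.ne'
  have a2 := Int.emod_lt_of_pos i hm
  have b1 := Int.emod_nonneg j hm.ne'
  have b2 := Int.emod_lt_of_pos j hm
  have a3 := Int.mul_ediv_add_emod i m
  have b3 := Int.mul_ediv_add_emod j m
  have c1 : m * (j / m - i / m) = (j - i) - (j % m - i % m) := by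
    rw [mul_sub]
    omega
  have c2 : j / m - i / m < 2 := by
    by_contra h
    have h3 : 2 ≤ j / m - i / m := by omega
    have h4 : m * 2 ≤ m * (j / m - i / m) := mul_le_mul_of_nonneg_left h3 hm.le
    omega
  have c3 : -1 < j / m - i / m := by
    by_contra h
    have h3 : j / m - i / m ≤ -1 := by omega
    have h4 : m * (j / m - i / m) ≤ m * (-1) := mul_le_mul_of_nonneg_left h3 hm.le
    omega
  have c4 : j / m - i / m = 0 ∨ j / m - i / m = 1 := by omega
  rcases c4 with c4 | c4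
  · left
    rw [c4, mul_zero] at c1
    omega
  · right
    rw [c4, mul_one] at c1
    omega

private theorem r1_btw (a b c : ℝ) (a' b' c' : ℤ) (h1 : a < c ↔ a' < c') (h2 : c < b ↔ c' < b')
    (h3 : b < c ↔ b' < c') (h4 : c < a ↔ c' < a') :
    btw a b c = (decide (a' < c' ∧ c' < b') || decide (b' < c' ∧ c' < a')) := by
  unfold H53P.btw
  simp only [h1, h2, h3, h4]

private theorem r1_xt (p q r s : Prop) [Decidable p] [Decidable q] [Decidable r] [Decidable s]
    (h : (p ∨ q) ↔ ¬ (r ∨ s)) : ((decide p || decide q) ^^ (decide r || decide s)) = true := by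
  by_cases hp : p <;> by_cases hq : q <;> by_cases hr : r <;> by_cases hs : s <;> simp_all

private theorem r1_xf (p q r s : Prop) [Decidable p] [Decidable q] [Decidable r] [Decidable s]
    (h : (p ∨ q) ↔ (r ∨ s)) : ((decide p || decide q) ^^ (decide r || decide s)) = false := by
  by_cases hp : p <;> by_cases hq : q <;> by_cases hr : r <;> by_cases hs : s <;> simp_all

/-- (R1) the rotation at `v` as a periodic sequence.
PROOF.  `exists_sorted`; `x i = σ (i % m)` (`Int.emod`, `m = card - 1`).  `eq_iff`: `σ` is injective (order),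
`Int.emod_emod_of_dvd`/`Int.emod_emod_eq..`, `Int.emod_eq_emod_iff_emod_sub_eq_zero`.  For
`i < j < k < l < i + m`: shift all four by a multiple of `m` so that `0 ≤ i < m`; then none, the last, the
last two or the last three of `i, j, k, l` are `≥ m` (four cases), the residues are then linearly ordered
(`i<j<k<l`, `l<i<j<k`, `k<l<i<j`, `j<k<l<i`), and `btw` of the real numbers decides each alternation. -/
theorem exists_enum {V : Type*} [Fintype V] [DecidableEq V] (T : Table V) (v : V)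
    (hV : 2 ≤ Fintype.card V) : ∃ x : ℤ → V, Enum T v ((Fintype.card V : ℤ) - 1) x := by
  obtain ⟨ρ, σ, h1, h2, h3, h4⟩ := exists_sorted T v hV
  obtain ⟨M, hM⟩ : ∃ M : ℕ, Fintype.card V - 1 = M := ⟨_, rfl⟩
  have hm : (Fintype.card V : ℤ) - 1 = (M : ℤ) := by omega
  rw [hm]
  have hM0 : (0 : ℤ) < M := by omega
  have hlt : ∀ i : ℤ, (i % (M : ℤ)).toNat < Fintype.card V - 1 := by
    intro i
    have a1 := Int.emod_nonneg i hM0.ne'
    have a2 := Int.emod_lt_of_pos i hM0
    omega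
  have hinj : Function.Injective σ := by
    intro i j hij
    have e1 : ¬ i < j := fun h => by
      have := (h3 i j).2 h
      rw [hij] at this
      exact lt_irrefl _ this
    have e2 : ¬ j < i := fun h => by
      have := (h3 j i).2 h
      rw [hij] at this
      exact lt_irrefl _ this
    exact le_antisymm (not_lt.1 e2) (not_lt.1 e1)
  have hρ : ∀ i j : ℤ, ρ (σ ⟨_, hlt i⟩) < ρ (σ ⟨_, hlt j⟩) ↔ i % (M : ℤ) < j % (M : ℤ) := by
    intro i j
    rw [h3, Fin.mk_lt_mk]
    have a1 := Int.emod_nonneg i hM0.ne'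
    have b1 := Int.emod_nonneg j hM0.ne'
    omega
  have hne : ∀ i j : ℤ, i % (M : ℤ) ≠ j % (M : ℤ) → σ ⟨_, hlt i⟩ ≠ σ ⟨_, hlt j⟩ := by
    intro i j hij h
    have a1 := Int.emod_nonneg i hM0.ne'
    have b1 := Int.emod_nonneg j hM0.ne'
    have := Fin.mk.inj_iff.1 (hinj h)
    omega
  refine ⟨fun i => σ ⟨_, hlt i⟩, hM0, fun i => h1 _, ?_, ?_, ?_, ?_, ?_⟩
  · intro i j
    show σ ⟨_, hlt i⟩ = σ ⟨_, hlt j⟩ ↔ _
    rw [show ((M : ℤ) ∣ i - j ↔ i % (M : ℤ) = j % (M : ℤ)) from (Int.modEq_iff_dvd.symm.trans ⟨fun h => h.symm, fun h => h.symm⟩)]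
    constructor
    · intro h
      by_contra hc
      exact hne i j hc h
    · intro h
      have : (⟨_, hlt i⟩ : Fin (Fintype.card V - 1)) = ⟨_, hlt j⟩ := by
        apply Fin.mk.inj_iff.2
        rw [h]
      rw [this]
  · intro w hw
    obtain ⟨i, hi⟩ := h2 w hw
    refine ⟨(i : ℕ), ?_⟩
    show σ ⟨_, hlt _⟩ = w
    rw [← hi]
    congr 1
    apply Fin.ext
    show (((i : ℕ) : ℤ) % (M : ℤ)).toNat = (i : ℕ)
    have := i.2
    rw [Int.emod_eq_of_lt (by omega) (by omega)]
    omega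
  · intro i j k l hij hjk hkl hli
    have e1 := r1_mod M hM0 i j (by omega) (by omega)
    have e2 := r1_mod M hM0 i k (by omega) (by omega)
    have e3 := r1_mod M hM0 i l (by omega) (by omega)
    have a1 := Int.emod_nonneg i hM0.ne'
    have a2 := Int.emod_lt_of_pos i hM0
    have b1 := Int.emod_nonneg j hM0.ne'
    have b2 := Int.emod_lt_of_pos j hM0
    have c1 := Int.emod_nonneg k hM0.ne'
    have c2 := Int.emod_lt_of_pos k hM0
    have d1 := Int.emod_nonneg l hM0.ne'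
    have d2 := Int.emod_lt_of_pos l hM0
    show altX T.X v (σ ⟨_, hlt i⟩) (σ ⟨_, hlt k⟩) (σ ⟨_, hlt j⟩) (σ ⟨_, hlt l⟩) = true
    rw [h4 _ _ _ _ (h1 _) (h1 _) (h1 _) (h1 _) (hne _ _ (by omega)) (hne _ _ (by omega))
      (hne _ _ (by omega)) (hne _ _ (by omega)) (hne _ _ (by omega)) (hne _ _ (by omega)),
      r1_btw _ _ _ (i % M) (k % M) (j % M) (hρ _ _) (hρ _ _) (hρ _ _) (hρ _ _),
      r1_btw _ _ _ (i % M) (k % M) (l % M) (hρ _ _) (hρ _ _) (hρ _ _) (hρ _ _)]
    apply r1_xt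
    omega
  · intro i j k l hij hjk hkl hli
    have e1 := r1_mod M hM0 i j (by omega) (by omega)
    have e2 := r1_mod M hM0 i k (by omega) (by omega)
    have e3 := r1_mod M hM0 i l (by omega) (by omega)
    have a1 := Int.emod_nonneg i hM0.ne'
    have a2 := Int.emod_lt_of_pos i hM0
    have b1 := Int.emod_nonneg j hM0.ne'
    have b2 := Int.emod_lt_of_pos j hM0
    have c1 := Int.emod_nonneg k hM0.ne'
    have c2 := Int.emod_lt_of_pos k hM0
    have d1 := Int.emod_nonneg l hM0.ne'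
    have d2 := Int.emod_lt_of_pos l hM0
    show altX T.X v (σ ⟨_, hlt i⟩) (σ ⟨_, hlt j⟩) (σ ⟨_, hlt k⟩) (σ ⟨_, hlt l⟩) = false
    rw [h4 _ _ _ _ (h1 _) (h1 _) (h1 _) (h1 _) (hne _ _ (by omega)) (hne _ _ (by omega))
      (hne _ _ (by omega)) (hne _ _ (by omega)) (hne _ _ (by omega)) (hne _ _ (by omega)),
      r1_btw _ _ _ (i % M) (j % M) (k % M) (hρ _ _) (hρ _ _) (hρ _ _) (hρ _ _),
      r1_btw _ _ _ (i % M) (j % M) (l % M) (hρ _ _) (hρ _ _) (hρ _ _) (hρ _ _)]
    apply r1_xf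
    omega
  · intro i j k l hij hjk hkl hli
    have e1 := r1_mod M hM0 i j (by omega) (by omega)
    have e2 := r1_mod M hM0 i k (by omega) (by omega)
    have e3 := r1_mod M hM0 i l (by omega) (by omega)
    have a1 := Int.emod_nonneg i hM0.ne'
    have a2 := Int.emod_lt_of_pos i hM0
    have b1 := Int.emod_nonneg j hM0.ne'
    have b2 := Int.emod_lt_of_pos j hM0
    have c1 := Int.emod_nonneg k hM0.ne'
    have c2 := Int.emod_lt_of_pos k hM0
    have d1 := Int.emod_nonneg l hM0.ne'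
    have d2 := Int.emod_lt_of_pos l hM0
    show altX T.X v (σ ⟨_, hlt i⟩) (σ ⟨_, hlt l⟩) (σ ⟨_, hlt j⟩) (σ ⟨_, hlt k⟩) = false
    rw [h4 _ _ _ _ (h1 _) (h1 _) (h1 _) (h1 _) (hne _ _ (by omega)) (hne _ _ (by omega))
      (hne _ _ (by omega)) (hne _ _ (by omega)) (hne _ _ (by omega)) (hne _ _ (by omega)),
      r1_btw _ _ _ (i % M) (l % M) (j % M) (hρ _ _) (hρ _ _) (hρ _ _) (hρ _ _),
      r1_btw _ _ _ (i % M) (l % M) (k % M) (hρ _ _) (hρ _ _) (hρ _ _) (hρ _ _)]
    apply r1_xf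
    omega

end H40C
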