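import Pool.Agent.Lib.H40C.M1
import Pool.Agent.Lib.H40C.K2
import Pool.Agent.Lib.H40C.R1
import Pool.Agent.Lib.H40C.F1B

set_option autoImplicit false

namespace H40C

open H53P

variable {V : Type*} (T : Table V)

theorem nest_nodup : ∀ L : List ℤ, Nest L → L.Nodup
  | [], _ => List.nodup_nil
  | x :: L, h => by
    rw [List.nodup_cons]
    refine ⟨fun hx => ?_, nest_nodup L h.2⟩
    rcases h.1 with h1 | h1
    · exact lt_irrefl _ (h1 x hx)
    · exact lt_irrefl _ (h1 x hx)

theorem edges_map {α β : Type*} (f : α → β) (L : List α) :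
    edges (L.map f) = (edges L).map (fun e => (f e.1, f e.2)) := by
  unfold edges
  rw [← List.map_tail, List.zip_map]
  rfl

theorem chain_edges {G : ℤ → ℤ → Prop} : ∀ L : List ℤ, L.IsChain G → ∀ e ∈ edges L, G e.1 e.2
  | [], _, e, he => by simp [edges] at he
  | [x], _, e, he => by simp [edges] at he
  | x :: y :: l, h, e, he => by
    rw [List.isChain_cons_cons] at h
    have he' : e ∈ (x, y) :: edges (y :: l) := by simpa [edges] using he
    rcases List.mem_cons.1 he' with rfl | he2
    · exact h.1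
    · exact chain_edges (y :: l) h.2 e he2

/-- (F1) assembly: `exists_enum`, `sys_of_enum`, `star_path`, `plane_path`; `P = L.map x`. -/
theorem table_main [Fintype V] [DecidableEq V] (hV : 3 ≤ Fintype.card V) {v : V}
    (hv : GoodV T v) : ∃ P : List V, P.Nodup ∧ (∀ w, w ∈ P ↔ w ≠ v) ∧
      (∀ e ∈ edges P, ∀ w, T.X e.1 e.2 v w = false) ∧ T.Plane (edges P) := by
  obtain ⟨x, hx⟩ := exists_enum T v (by omega)
  set m : ℤ := (Fintype.card V : ℤ) - 1 with hm
  have hm0 : 0 < m := hx.pos
  obtain ⟨p, L, cur, hL⟩ := star_path (sys_of_enum T hx hv)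
  have hmod : ∀ i : ℤ, ∃ j, p ≤ j ∧ j ≤ p + m - 1 ∧ x j = x i := by
    intro i
    refine ⟨p + (i - p) % m, ?_, ?_, ?_⟩
    · have := Int.emod_nonneg (i - p) hm0.ne'
      omega
    · have := Int.emod_lt_of_pos (i - p) hm0
      omega
    · rw [hx.eq_iff]
      have h1 : p + (i - p) % m - i = -(m * ((i - p) / m)) := by
        have := Int.emod_add_mul_ediv (i - p) m
        omega
      rw [h1]
      exact (dvd_mul_right _ _).neg_right
  refine ⟨L.map x, ?_, ?_, ?_, plane_path T hx hL⟩
  · rw [List.nodup_map_iff_inj_on (nest_nodup L hL.nest)]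
    intro i hi j hj hij
    rw [hx.eq_iff] at hij
    rw [hL.mem] at hi hj
    by_contra hne
    have h1 : i - j ≠ 0 := by omega
    have h2 := Int.le_of_dvd (a := m) (b := |i - j|) (abs_pos.2 h1) ((dvd_abs _ _).2 hij)
    rcases abs_cases (i - j) with h3 | h3 <;> omega
  · intro w
    rw [List.mem_map]
    constructor
    · rintro ⟨i, -, rfl⟩
      exact hx.ne i
    · intro hw
      obtain ⟨i, rfl⟩ := hx.surj w hw
      obtain ⟨j, h1, h2, h3⟩ := hmod i
      exact ⟨j, (hL.mem j).2 ⟨h1, h2⟩, h3⟩
  · intro e he w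
    rw [edges_map, List.mem_map] at he
    obtain ⟨f, hf, rfl⟩ := he
    have h1 := chain_edges L hL.chain f hf
    by_cases hw : w = v
    · subst hw
      by_contra hcon
      have := T.ne _ _ _ _ (by simpa using hcon : T.X (x f.1) (x f.2) w w = true)
      exact this.2.1 rfl
    · obtain ⟨i, rfl⟩ := hx.surj w hw
      have := h1 i
      simpa using this

end H40C
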