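import Pool.Agent.Lib.H40C.Defs

set_option autoImplicit false

namespace H40C

open H53P

variable {V : Type*} (T : Table V)

private theorem f1a_swap1 (u a b c d : V) : altX T.X u a b c d = altX T.X u b a c d := by
  unfold altX
  rw [T.symm1 b a u c, T.symm1 b a u d, T.symm1 b a c d, Bool.xor_comm (T.X u b c d)]

private theorem f1a_swap2 (u a b c d : V) : altX T.X u a b c d = altX T.X u a b d c := by
  unfold altX
  rw [T.symm2 u a d c, T.symm1 d c u a, T.symm2 c d u a, T.symm2 u b d c, T.symm1 d c u b,
    T.symm2 c d u b, T.symm2 a b d c, T.symm1 d c a b, T.symm2 c d a b]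
  cases T.X u a c d <;> cases T.X u b c d <;> cases T.X a b u c <;> cases T.X a b u d <;>
    cases T.X a b c d <;> rfl

private theorem f1a_core {v : V} {m : ℤ} {x : ℤ → V} (hx : Enum T v m x) {p q y z s : ℤ}
    (hpq : p < q) (hzy : z < y) (hz : (z < p ∧ z < q) ∨ (p < z ∧ q < z))
    (hy : (y < p ∧ y < q) ∨ (p < y ∧ q < y))
    (h1 : s ≤ p ∧ p < s + m) (h2 : s ≤ q ∧ q < s + m) (h3 : s ≤ y ∧ y < s + m)
    (h4 : s ≤ z ∧ z < s + m) :
    altX T.X v (x p) (x q) (x z) (x y) = false := by
  have hper : ∀ i, x (i + m) = x i := fun i => (hx.eq_iff _ _).2 ⟨1, by ring⟩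
  rcases hz with hz | hz
  · rcases hy with hy | hy
    · have := hx.alt0 p q (z + m) (y + m) (by omega) (by omega) (by omega) (by omega)
      rwa [hper, hper] at this
    · have := hx.alt0 p q y (z + m) (by omega) (by omega) (by omega) (by omega)
      rw [hper] at this
      rw [f1a_swap2 T]
      exact this
  · rcases hy with hy | hy
    · exact absurd hzy (by omega)
    · exact hx.alt0 p q z y (by omega) (by omega) (by omega) (by omega)

/-- (F1A) PROOF.  `T.symm1`, `T.symm2` and `altX` for the cyclic order: let `z, y` be two elements outside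
of the hull of `{p, q}` (both `< min p q`, or both `> max p q`, or on different sides), all four different
and in an interval of length `< m`.  Then `z, y` are not separated by `p, q` in the cyclic order, and
`altX T.X v (x p) (x q) (x z) (x y) = false` by `alt0` or `alt0'` (sort the four; use the symmetries of
`altX` which follow from `symm1, symm2`). -/
theorem alt_outside {v : V} {m : ℤ} {x : ℤ → V} (hx : Enum T v m x) {p q y z : ℤ}
    (hne : p ≠ q) (hyz : y ≠ z) (hz : (z < p ∧ z < q) ∨ (p < z ∧ q < z))
    (hy : (y < p ∧ y < q) ∨ (p < y ∧ q < y)) {s : ℤ} (hs : ∀ i ∈ [p, q, y, z], s ≤ i ∧ i < s + m) :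
    altX T.X v (x p) (x q) (x z) (x y) = false := by
  have h1 := hs p (by simp)
  have h2 := hs q (by simp)
  have h3 := hs y (by simp)
  have h4 := hs z (by simp)
  rcases lt_or_gt_of_ne hne with hpq | hpq
  · rcases lt_or_gt_of_ne hyz with h | h
    · rw [f1a_swap2 T]
      exact f1a_core T hx hpq h hy hz h1 h2 h4 h3
    · exact f1a_core T hx hpq h hz hy h1 h2 h3 h4
  · rw [f1a_swap1 T]
    have hz' := hz.imp And.symm And.symm
    have hy' := hy.imp And.symm And.symm
    rcases lt_or_gt_of_ne hyz with h | h
    · rw [f1a_swap2 T]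
      exact f1a_core T hx hpq h hy' hz' h2 h1 h4 h3
    · exact f1a_core T hx hpq h hz' hy' h2 h1 h3 h4

end H40C
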