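import Pool.Agent.Lib.H53P.C0

set_option autoImplicit false

namespace H40C

open H53P

/-- the star at `v` together with the polygonal path through the list `P` -/
def starPath {n : ℕ} (v : Fin n) (P : List (Fin n)) : SimpleGraph (Fin n) :=
  SimpleGraph.fromRel fun i j => i = v ∨ (i, j) ∈ edges P

end H40C
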