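import Pool.Agent.Lib.H40C.G1B

set_option autoImplicit false

namespace H40C

variable {m : ℤ} {C : ℤ → ℤ → ℤ → Prop}

/-- (G1C) `c` is no witness of `(a, a+1)`, if both are bad and disjoint.
PROOF.  Suppose `C a (a+1) c`; by `step_iff` also `C a (a+1) (c+1)`.  `opp` (`a < a+1 < c < c+1`) gives
`¬ C c (c+1) a`, so `¬ C c (c+1) (a+m)` (`per3`), and `step_iff` for the pair `(c, a+m)` (with the witness
`w + m` of `(a+m, a+m+1)`, by `per, per2, per3`) gives `¬ C c (c+1) (a+m+1)`; so `u ≠ a+m, a+m+1`.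
If `u < a + m`: `transfer1` with `x = a + 1 + m` gives `C (c+1) (a+1+m) u`, i.e. `C (a+1) (c+1) u`: `c + 1` is
touched by `U` in base `a + 1`, and by `D`, because `C (a+1) (a+m) (c+1)`.  If `u > a + 1 + m`: `transfer2`
with `x = a + m` gives `C c (a+m) u`, i.e. `C a c (u-m)`: in base `a` the `D` relation `(u-m, c)`, so `c` is
touched by `D`, and by `U` as `C a (a+1) c`: `not_both`. -/
theorem no_wit (h : Sys m C) {a c w u : ℤ} (h1 : a + 1 < c) (h2 : c + 1 < a + m)
    (hw1 : a + 1 < w) (hw2 : w < a + m) (hw : C a (a + 1) w)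
    (hu1 : c + 1 < u) (hu2 : u < c + m) (hu : C c (c + 1) u) : ¬ C a (a + 1) c := by
  intro H
  have H' : C a (a + 1) (c + 1) := (step_iff h h1 h2 hu1 hu2 hu).1 H
  have n1 : ¬ C c (c + 1) a := h.opp a (a + 1) c (c + 1) (by omega) h1 (by omega) h2 H
  have n2 : ¬ C c (c + 1) (a + m) := fun hh => n1 ((h.per3 _ _ _).1 hh)
  have hwm : C (a + m) (a + m + 1) (w + m) := by
    have e1 : C a (a + 1) (w + m) := (h.per3 _ _ _).2 hw
    have e2 : C (a + m) (a + 1) (w + m) := (h.per _ _ _).2 e1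
    have e3 : C (a + m) (a + 1 + m) (w + m) := (per2 h _ _ _).2 e2
    have e4 : a + 1 + m = a + m + 1 := by ring
    rwa [e4] at e3
  have n3 : ¬ C c (c + 1) (a + m + 1) := fun hh =>
    n2 ((step_iff h (a := c) (c := a + m) (u := w + m) h2 (by omega) (by omega) (by omega) hwm).2 hh)
  have n4 : ¬ C c (c + 1) (a + 1 + m) := by
    have e4 : a + 1 + m = a + m + 1 := by ring
    rw [e4]; exact n3
  have hne1 : u ≠ a + m := by rintro rfl; exact n2 hu
  have hne2 : u ≠ a + m + 1 := by rintro rfl; exact n3 hu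
  rcases lt_or_ge u (a + m) with hlt | hge
  · have t1 : C (c + 1) (a + 1 + m) u :=
      transfer1 h hu1 (by omega) (by omega) hu n4
    have t2 : C (c + 1) (a + 1) u := (per2 h _ _ _).1 t1
    have t3 : C (a + 1) (c + 1) u := h.symm _ _ _ t2
    have t4 : C (a + 1) (a + m) (c + 1) := (per2 h _ _ _).2 (h.symm _ _ _ H')
    refine not_both h (b := a + 1) (y := c + 1) (by omega) (by omega) ?_ ?_
    · exact ⟨u, by omega, by omega, Or.inl ⟨hu1, t3⟩⟩
    · exact ⟨a + m, by omega, by omega, Or.inl ⟨h2, t4⟩⟩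
  · have hgt : a + m + 1 < u := by omega
    have t1 : C c (a + m) u := transfer2 h h2 (by omega) hu2 hu n2
    have t2 : C c a u := (per2 h _ _ _).1 t1
    have t3 : C a c u := h.symm _ _ _ t2
    have t4 : C a c (u - m) := by
      have e : u - m + m = u := by ring
      rw [← h.per3, e]; exact t3
    refine not_both h (b := a) (y := c) (by omega) (by omega) ?_ ?_
    · exact ⟨a + 1, by omega, by omega, Or.inr ⟨h1, H⟩⟩
    · exact ⟨u - m, by omega, by omega, Or.inr ⟨by omega, t4⟩⟩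

end H40C
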