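import Pool.Agent.Lib.H40C.G1A
import Pool.Agent.Lib.H40C.G1C

set_option autoImplicit false

namespace H40C

variable {m : ℤ} {C : ℤ → ℤ → ℤ → Prop}

/-- (G1) two bad short edges `(a, a+1)` and `(c, c+1)`: all their witnesses are in the same arc, and
in the opposite order.
PROOF.  `c = a + 1`: `pair_adj`, second alternative (`u < w < a + m`).  `c + 1 = a + m`: `pair_adj` for the
pair `(c, c+1 = a+m)` with the witnesses `u` and `w + m` (`C (a+m) (a+m+1) (w+m)` by `per, per2, per3`)
gives `w + m < u`, first alternative.  Otherwise `a + 1 < c`, `c + 1 < a + m`: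
(B) `no_wit` and `step_iff` for `(a, c)` and for `(c, a + m)`: `w ≠ c, c+1`, `u ≠ a+m, a+m+1`.
(C) `w < c`, `u < a + m` is impossible: `transfer1` with `x = a + 1 + m` (no witness of `c` by (B)) gives
`C (c+1) (a+1+m) u`, i.e. `C (a+1) (c+1) u`: `c + 1` is touched by `U`, and by `D` (`bad_TD` for `a`,
`w ≤ c + 1`) in base `a + 1`.
(C') `w > c + 1`, `u > a + 1 + m` is impossible: `transfer2` with `x = a + m` gives `C c (a+m) u`, i.e.
`C a c (u-m)`: `D` relation `(u-m, c)` in base `a`; `c` is touched by `U` (`bad_TU` for `a`).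
(D) `w < c`, `u > a + 1 + m`: first alternative, `w + m < u`: otherwise as in (C') `u - m` is touched by
`D` and by `U` (`a + 1 ≤ u - m ≤ w`) in base `a`.
(D') `w > c + 1`, `u < a + m`: second alternative, `u < w`: otherwise as in (C) `C (a+1) (c+1) u`: `u` is
touched by `U` and by `D` (`w ≤ u ≤ a + m`) in base `a + 1`. -/
theorem pair (h : Sys m C) {a c w u : ℤ} (hac : a < c) (hca : c < a + m) (hw1 : a + 1 < w)
    (hw2 : w < a + m) (hw : C a (a + 1) w) (hu1 : c + 1 < u) (hu2 : u < c + m)
    (hu : C c (c + 1) u) :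
    (w < c ∧ a + 1 + m < u ∧ w + m < u) ∨ (c + 1 < w ∧ u < a + m ∧ u < w) := by
  -- the witness of the shifted edge
  have hwm : C (a + m) (a + m + 1) (w + m) := by
    have e1 : a + m + 1 = a + 1 + m := by ring
    rw [e1]
    exact (h.per _ _ _).2 ((per2 h _ _ _).2 ((h.per3 _ _ _).2 hw))
  rcases eq_or_lt_of_le (show a + 1 ≤ c by omega) with hc | hc
  · subst hc
    have h1 := pair_adj h hw1 hw2 hw hu1 hu2 hu
    exact Or.inr ⟨by omega, by omega, h1⟩
  rcases eq_or_lt_of_le (show c + 1 ≤ a + m by omega) with hc' | hc'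
  · have h1 : w + m < u := by
      refine pair_adj h (a := c) (w := u) (u := w + m) hu1 hu2 hu (by omega) (by omega) ?_
      rw [hc']
      exact hwm
    exact Or.inl ⟨by omega, by omega, h1⟩
  -- (B)
  have b1 : ¬ C a (a + 1) c := no_wit h hc hc' hw1 hw2 hw hu1 hu2 hu
  have b2 : ¬ C a (a + 1) (c + 1) := fun H => b1 ((step_iff h hc hc' hu1 hu2 hu).2 H)
  have b3 : ¬ C c (c + 1) (a + m) :=
    no_wit h (a := c) (c := a + m) (w := u) (u := w + m) hc' (by omega) hu1 hu2 hu (by omega) (by omega) hwm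
  have b4 : ¬ C c (c + 1) (a + m + 1) := fun H =>
    b3 ((step_iff h (a := c) (c := a + m) (u := w + m) hc' (by omega) (by omega) (by omega) hwm).2 H)
  have w1 : w ≠ c := by
    rintro rfl
    exact b1 hw
  have w2 : w ≠ c + 1 := by
    rintro rfl
    exact b2 hw
  have u1 : u ≠ a + m := by
    rintro rfl
    exact b3 hu
  have u2 : u ≠ a + m + 1 := by
    rintro rfl
    exact b4 hu
  have b4' : ¬ C c (c + 1) (a + 1 + m) := by
    have e1 : a + 1 + m = a + m + 1 := by ring
    rw [e1]
    exact b4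
  -- the two transfers
  have t1 : u < a + m → C (a + 1) (c + 1) u := by
    intro hlt
    have h1 := transfer1 h (c := c) (u := u) (x := a + 1 + m) hu1 (by omega) (by omega) hu b4'
    exact h.symm _ _ _ ((per2 h _ _ _).1 h1)
  have t2 : a + m + 1 < u → C a c (u - m) := by
    intro hlt
    have h1 := transfer2 h (c := c) (u := u) (x := a + m) hc' (by omega) hu2 hu b3
    have h2 : C a c u := h.symm _ _ _ ((per2 h _ _ _).1 h1)
    have e1 : u = u - m + m := by ring
    rw [e1] at h2
    exact (h.per3 _ _ _).1 h2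
  have hcase : (w < c ∨ c + 1 < w) ∧ (u < a + m ∨ a + m + 1 < u) := by omega
  rcases hcase with ⟨hwc | hwc, huc | huc⟩
  · -- (C)
    exfalso
    have k1 := t1 huc
    exact not_both h (b := a + 1) (y := c + 1) (by omega) (by omega)
      ⟨u, by omega, by omega, Or.inl ⟨hu1, k1⟩⟩ (bad_TD h hw1 hw2 hw (by omega) (by omega))
  · -- (D)
    refine Or.inl ⟨hwc, by omega, ?_⟩
    by_contra hcon
    have k1 := t2 huc
    exact not_both h (b := a) (y := u - m) (by omega) (by omega)
      (bad_TU h hw1 hw2 hw (by omega) (by omega)) ⟨c, by omega, by omega, Or.inl ⟨by omega, k1⟩⟩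
  · -- (D')
    refine Or.inr ⟨hwc, huc, ?_⟩
    by_contra hcon
    have k1 := t1 huc
    exact not_both h (b := a + 1) (y := u) (by omega) (by omega)
      ⟨c + 1, by omega, by omega, Or.inr ⟨hu1, k1⟩⟩ (bad_TD h hw1 hw2 hw (by omega) (by omega))
  · -- (C')
    exfalso
    have k1 := t2 huc
    exact not_both h (b := a) (y := c) (by omega) (by omega)
      (bad_TU h hw1 hw2 hw (by omega) (by omega)) ⟨u - m, by omega, by omega, Or.inr ⟨by omega, k1⟩⟩

end H40C
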