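import Pool.Agent.Lib.H40C.S1

set_option autoImplicit false

namespace H40C

variable {m : ℤ} {C : ℤ → ℤ → ℤ → Prop}

/-- (G1A) two adjacent bad short edges `(a, a+1)`, `(a+1, a+2)`.
PROOF.  Base `a + 1`: `bad_TU` for `(a+1, a+2)`: touched by `U` on `[a+2, u]`.  `bad_TD` for `(a, a+1)`:
touched by `D` on `[w, a+m]`.  If `w ≤ u`, then `y = u` (`u ≤ a + m`) is touched by both: `not_both`
(in base `a + 1`). -/
theorem pair_adj (h : Sys m C) {a w u : ℤ} (hw1 : a + 1 < w) (hw2 : w < a + m)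
    (hw : C a (a + 1) w) (hu1 : a + 1 + 1 < u) (hu2 : u < a + 1 + m)
    (hu : C (a + 1) (a + 1 + 1) u) : u < w := by
  by_contra hlt
  have hwu : w ≤ u := not_lt.1 hlt
  have hU : TU m C (a + 1) u := bad_TU h hu1 hu2 hu (by omega) le_rfl
  have hD : TD m C (a + 1) u := bad_TD h hw1 hw2 hw hwu (by omega)
  exact not_both h (by omega) hu2 hU hD

end H40C
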