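import Pool.Agent.Lib.H40C.S1

set_option autoImplicit false

namespace H40C

variable {m : ℤ} {C : ℤ → ℤ → ℤ → Prop}

/-- (G1B) `c` is a witness of `(a, a+1)` iff `c + 1` is one, if `(c, c+1)` is bad and disjoint from
`(a, a+1)`.
PROOF.  (→) `coD` in base `a + 1` with `c < c+1 < a+m` from `C (a+1) (a+m) c` (`symm`, `per2`): either
`C (a+1) (a+m) (c+1)`, i.e. `C a (a+1) (c+1)`, or `C (a+1) (c+1) c`, i.e. `C (c+1) (a+1+m) (c+m)`: a `U`
relation in base `c + 1`, so `c + m` is touched by `U` and by `D` (`bad_TD` for `c`, `y = c + m`):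
`not_both`.  (←) `coU` in base `a` with `a+1 < c < c+1`: either `C a (a+1) c` or `C a c (c+1)`, i.e.
`C c (a+m) (c+1)`, in base `c` a `D` relation (`x = c+1`, `z = a+m`): `c + 1` is touched by `D` and by `U`
(`bad_TU` for `c`): `not_both`. -/
theorem step_iff (h : Sys m C) {a c u : ℤ} (h1 : a + 1 < c) (h2 : c + 1 < a + m)
    (hu1 : c + 1 < u) (hu2 : u < c + m) (hu : C c (c + 1) u) :
    C a (a + 1) c ↔ C a (a + 1) (c + 1) := by
  constructor
  · intro H
    have H1 : C (a + 1) (a + m) c := (per2 h _ _ _).2 (h.symm _ _ _ H)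
    rcases h.coD (a + 1) c (c + 1) (a + m) h1 (by omega) h2 (by omega) H1 with H2 | H2
    · exfalso
      have H3 : C (c + 1) (a + 1 + m) (c + m) :=
        (per2 h _ _ _).2 ((h.per3 _ _ _).2 (h.symm _ _ _ H2))
      exact not_both h (b := c + 1) (y := c + m) (by omega) (by omega)
        ⟨a + 1 + m, by omega, by omega, Or.inr ⟨by omega, H3⟩⟩
        (bad_TD h hu1 hu2 hu (by omega) (by omega))
    · exact h.symm _ _ _ ((per2 h _ _ _).1 H2)
  · intro H
    rcases h.coU a (a + 1) c (c + 1) (by omega) h1 (by omega) h2 H with H2 | H2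
    · exact H2
    · exfalso
      have H3 : C c (a + m) (c + 1) := (per2 h _ _ _).2 (h.symm _ _ _ H2)
      exact not_both h (b := c) (y := c + 1) (by omega) (by omega)
        (bad_TU h hu1 hu2 hu (by omega) (by omega))
        ⟨a + m, by omega, by omega, Or.inl ⟨by omega, H3⟩⟩

end H40C
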