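import Pool.Agent.Lib.H40C.G1

set_option autoImplicit false

namespace H40C

variable {m : ℤ} {C : ℤ → ℤ → ℤ → Prop}

private theorem g2_wit (h : Sys m C) {a : ℤ} (ha : Bad C a) :
    ∃ w, a + 1 < w ∧ w < a + m ∧ C a (a + 1) w := by
  obtain ⟨w0, hw0⟩ := ha
  obtain ⟨w, h1, h2, h3⟩ := norm3 h hw0
  refine ⟨w, ?_, h2, h3⟩
  rcases eq_or_lt_of_le (show a + 1 ≤ w by omega) with h4 | h4
  · exfalso
    have h5 := (h.ne _ _ _ h3).2.2
    apply h5
    rw [h4, sub_self]
    exact dvd_zero m
  · exact h4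

private theorem g2_min (h : Sys m C) : ∀ n : ℕ, ∀ a c : ℤ, (c - a).toNat = n → a < c → c < a + m →
    Bad C c → (∃ w, a + 1 < w ∧ w < c ∧ C a (a + 1) w) → ∃ a c, Arc m C a c := by
  intro n
  induction n using Nat.strong_induction_on with
  | _ n ih =>
    intro a c hn hac hca hc hw
    obtain ⟨w, w1, w2, w3⟩ := hw
    by_cases hgood : ∀ d, a < d → d < c → ¬ Bad C d
    · obtain ⟨u, u1, u2, u3⟩ := g2_wit h hc
      refine ⟨a, c, hac, hca, ⟨w, w1, w2, w3⟩, ⟨u, ?_, u2, u3⟩, hgood⟩
      rcases pair h hac hca w1 (by omega) w3 u1 u2 u3 with h1 | h1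
      · exact h1.2.1
      · omega
    · push Not at hgood
      obtain ⟨d, d1, d2, d3⟩ := hgood
      obtain ⟨z, z1, z2, z3⟩ := g2_wit h d3
      rcases pair h d1 (by omega) w1 (by omega) w3 z1 z2 z3 with h1 | h1
      · exact ih (d - a).toNat (by omega) a d rfl d1 (by omega) d3 ⟨w, w1, h1.1, w3⟩
      · exact ih (c - d).toNat (by omega) d c rfl d2 (by omega) hc ⟨z, z1, by omega, z3⟩

/-- (G2A) choice of the arc.
PROOF.  `Bad` edges have normalised witnesses (`norm3`; a witness in `(a, a+m)` is not `a + 1`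
by `ne`).  Call a pair `a < c < a + m` of bad edges *inner* if some witness `w` of `a` has
`a + 1 < w < c`.  By `pair` (for one witness of each) either `(a, c)` is inner or `(c, a + m)` is inner
(for `(c, a+m)`: `Bad (a+m)` by `per`, `per2`; second alternative of `pair`: `u < a + m`).  So there is
an inner pair; take one with `c - a` minimal (strong induction on `(c - a).toNat`).  By `pair`, every
witness `u` of `c` in `(c+1, c+m)` satisfies `a + 1 + m < u` and every witness of `a` is `< c`.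
Suppose `d` is bad, `a < d < c`, with witness `z ∈ (d+1, d+m)`.  `(a, d)` is not inner (minimality), so
`pair` for `(a, d)` (witnesses `w`, `z`) gives `z < w < c`.  `(d, c)` is not inner, so `z` is not in
`(d+1, c)`; but `d + 1 < z < w < c`: contradiction. -/
theorem choice (h : Sys m C) {a c : ℤ} (hac : a < c) (hca : c < a + m) (ha : Bad C a)
    (hc : Bad C c) : ∃ a c, Arc m C a c := by
  obtain ⟨w, w1, w2, w3⟩ := g2_wit h ha
  obtain ⟨u, u1, u2, u3⟩ := g2_wit h hc
  rcases pair h hac hca w1 w2 w3 u1 u2 u3 with h1 | h1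
  · exact g2_min h _ a c rfl hac hca hc ⟨w, w1, h1.1, w3⟩
  · refine g2_min h _ c (a + m) rfl hca (by omega) ?_ ⟨u, u1, h1.2.1, u3⟩
    refine ⟨w, ?_⟩
    have e1 : a + m + 1 = a + 1 + m := by ring
    rw [e1]
    exact (h.per _ _ _).2 ((per2 h _ _ _).2 w3)

end H40C
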