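import Pool.Agent.Lib.H40C.G1

set_option autoImplicit false

namespace H40C

variable {m : ℤ} {C : ℤ → ℤ → ℤ → Prop}

/-- (G2B) all witnesses of the two bad edges of an arc.  PROOF.  First part: `pair` with `w` and the
witness `u` of `A.wc` (`a + 1 + m < u` excludes the second alternative).  Second part: `pair` with the
witness `w` of `A.wa` (`w < c` excludes the second alternative) and `u`. -/
theorem arc_wit (h : Sys m C) {a c : ℤ} (A : Arc m C a c) :
    (∀ w, a + 1 < w → w < a + m → C a (a + 1) w → w < c) ∧
    ∀ u, c + 1 < u → u < c + m → C c (c + 1) u → a + 1 + m < u := by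
  constructor
  · intro w hw1 hw2 hw
    obtain ⟨u, hu1, hu2, hu⟩ := A.wc
    rcases pair h A.lt A.lt' hw1 hw2 hw (by have := A.lt'; omega) hu2 hu with h1 | h1
    · exact h1.1
    · omega
  · intro u hu1 hu2 hu
    obtain ⟨w, hw1, hw2, hw⟩ := A.wa
    rcases pair h A.lt A.lt' hw1 (by have := A.lt'; omega) hw hu1 hu2 hu with h1 | h1
    · exact h1.2.1
    · omega

end H40C
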