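import Pool.Agent.Lib.H40C.G2B

set_option autoImplicit false

namespace H40C

variable {m : ℤ} {C : ℤ → ℤ → ℤ → Prop}

/-- (I1A, part 1) PROOF.  `w` from `A.wa`.  `l = a + m`: relation `(a+1+m, w+m)` in base `a + m`
(periodicity).  `l < a + m`: `l` is no witness of `(a, a+1)` (`arc_wit`: witnesses are `< c`), so
`transfer1` with `c := a`, `u := w`, `x := l` gives `C (a+1) l w`, i.e. (symm, periodicity)
`C l (a+1+m) (w+m)`. -/
theorem left_TU (h : Sys m C) {a c : ℤ} (A : Arc m C a c) {l : ℤ} (h1 : c + 1 ≤ l)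
    (h2 : l ≤ a + m) : TU m C l (a + 1 + m) := by
  have hlt := A.lt
  obtain ⟨w, hw1, hw2, hw⟩ := A.wa
  have key : C l (a + 1) w := by
    rcases h2.lt_or_eq with h3 | h3
    · have hn : ¬ C a (a + 1) l := by
        intro H
        have := (arc_wit h A).1 l (by omega) h3 H
        omega
      exact h.symm _ _ _ (transfer1 h hw1 (by omega) h3 hw hn)
    · rw [h3]
      exact (h.per a (a + 1) w).2 hw
  refine ⟨w + m, by omega, by omega, Or.inl ⟨by omega, ?_⟩⟩
  exact (per2 h _ _ _).2 ((h.per3 _ _ _).2 key)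

/-- (I1A, part 2) PROOF.  `x = u` from `A.wc`.  `l = c + 1`: symm and periodicity.  `l > c + 1`: `l` is
no witness of `(c, c+1)` (`arc_wit`: witnesses are `> a + 1 + m`), so `transfer2` gives `C c l u`, that is
`C l (c+m) u`. -/
theorem left_D (h : Sys m C) {a c : ℤ} (A : Arc m C a c) {l : ℤ} (h1 : c + 1 ≤ l)
    (h2 : l ≤ a + m) : ∃ x, a + 1 + m < x ∧ x < c + m ∧ C l (c + m) x := by
  have hlt := A.lt
  obtain ⟨u, hu1, hu2, hu⟩ := A.wc
  refine ⟨u, hu1, hu2, (per2 h _ _ _).2 (h.symm _ _ _ ?_)⟩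
  rcases h1.lt_or_eq with h3 | h3
  · have hn : ¬ C c (c + 1) l := by
      intro H
      have := (arc_wit h A).2 l h3 (by omega) H
      omega
    exact transfer2 h h3 (by omega) hu2 hu hn
  · rw [← h3]
    exact hu

end H40C
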