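import Pool.Agent.Lib.H40C.I1A

set_option autoImplicit false

namespace H40C

variable {m : ℤ} {C : ℤ → ℤ → ℤ → Prop}

/-- (I1B) PROOF.  In base `l` this is a `D` relation `(l', y)`, whose span contains `a + 1 + m`
(`span_D`), which is touched by `U` (`left_TU`): contradiction by `not_both`.  (Note `c + m < l + m`.) -/
theorem left_not (h : Sys m C) {a c : ℤ} (A : Arc m C a c) {l l' y : ℤ} (h1 : c + 1 ≤ l)
    (h2 : l < l') (h3 : l' ≤ a + m) (h4 : a + 1 + m ≤ y) (h5 : y ≤ c + m) : ¬ C l y l' := by
  intro H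
  have hU : TU m C l (a + 1 + m) := left_TU h A h1 (by omega)
  have hD : TD m C l (a + 1 + m) := by
    rcases h4.lt_or_eq with h6 | h6
    · exact span_D h h2 (by omega) (by omega) H (by omega) (by omega)
    · rw [← h6] at H
      exact ⟨l', h2, by omega, Or.inr ⟨by omega, H⟩⟩
  exact not_both h (by omega) (by omega) hU hD

end H40C
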