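import Pool.Agent.Lib.H40C.I1A

set_option autoImplicit false

namespace H40C

variable {m : ℤ} {C : ℤ → ℤ → ℤ → Prop}

/-- (I1C) every witness `w` in `(l, l+m)` of a bad edge `(l, l+1)` of the left part satisfies
`a + 1 + m < w < c + m`.
PROOF.  `w ≠ l + 1` by `ne`, so `w` in `(l+1, l+m)`.  `pair` for `(c, l)` with `u` from `A.wc`
(`u > a+1+m > l`, so the first alternative is impossible): second alternative, `w < c + m`.  `pair` for
`(l, a+m)` with `w` and the witness `w_a + m` of `(a+m, a+m+1)` (`w_a` from `A.wa`; `per, per2, per3`):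
the first alternative would give `l + 1 + m < w_a + m`, but `w_a < c`; so `a + m + 1 < w`. -/
theorem left_wit (h : Sys m C) {a c : ℤ} (A : Arc m C a c) {l w : ℤ} (h1 : c + 1 ≤ l)
    (h2 : l + 1 ≤ a + m) (h3 : l < w) (h4 : w < l + m) (hw : C l (l + 1) w) :
    a + 1 + m < w ∧ w < c + m := by
  have hne : w ≠ l + 1 := by
    intro h5
    apply (h.ne _ _ _ hw).2.2
    rw [h5, sub_self]
    exact dvd_zero m
  have hac := A.lt
  have hca := A.lt'
  obtain ⟨u, hu1, hu2, hu⟩ := A.wc
  obtain ⟨v, hv1, hv2, hv⟩ := A.wa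
  have hv' : C (a + m) (a + m + 1) (v + m) := by
    rw [show a + m + 1 = (a + 1) + m by ring, h.per, per2 h, h.per3]
    exact hv
  have p1 := pair h (a := c) (c := l) (w := u) (u := w) (by omega) (by omega) (by omega)
    (by omega) hu (by omega) h4 hw
  have p2 := pair h (a := l) (c := a + m) (w := w) (u := v + m) (by omega) (by omega) (by omega)
    h4 hw (by omega) (by omega) hv'
  rcases p1 with p1 | p1
  · omega
  · rcases p2 with p2 | p2
    · omega
    · omega

end H40C
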