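import Pool.Agent.Lib.H40C.Defs

set_option autoImplicit false

namespace H40C

/-- `y` is the right end of a `D` relation in base `l` -/
def DS (C : ℤ → ℤ → ℤ → Prop) (l y : ℤ) : Prop := ∃ x, l < x ∧ x < y ∧ C l y x

/-- `t` is the first position of `Q + m` with `DS` -/
def First (m : ℤ) (C : ℤ → ℤ → ℤ → Prop) (a c l t : ℤ) : Prop :=
  a + 1 + m ≤ t ∧ t ≤ c + m ∧ DS C l t ∧ ∀ y, a + 1 + m ≤ y → y < t → ¬ DS C l y

end H40C
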