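import Pool.Agent.Lib.H40C.I1A
import Pool.Agent.Lib.H40C.I2Defs

set_option autoImplicit false

namespace H40C

variable {m : ℤ} {C : ℤ → ℤ → ℤ → Prop}

/-- (I2B) PROOF.  Let `C l t x`, `l < x < t`.  `t - 1` is touched by `D` (`span_D`, `x ≤ t - 1`), `t` is
touched by `D`; `a + 1 + m` is touched by `U` (`left_TU`), so `t ≠ a+1+m ≠ t-1` by `not_both`:
`t ≥ a + m + 3`.
`Gd C l (t-1)`: a witness can be normalised to `k ∈ (l, l+m)` (`norm3`), `k ≠ t - 1` by `ne`.
`k > t - 1`: `t - 1` is touched by `U`, contradiction (`not_both`).  `k < t - 1`: `DS C l (t-1)`,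
contradiction to `First`.  `Gd C l (t-2)`: `k > t - 2`: `t - 1` is in the span of the `U` relation
`(t-2, k)` (`span_U`), contradiction; `k < t - 2`: `DS C l (t-2)`. -/
theorem first_good (h : Sys m C) {a c : ℤ} (A : Arc m C a c) {l t : ℤ} (h1 : c + 1 ≤ l)
    (h2 : l ≤ a + m) (ht : First m C a c l t) :
    a + m + 3 ≤ t ∧ Gd C l (t - 1) ∧ Gd C l (t - 2) := by
  obtain ⟨t1, t2, ⟨x, hx1, hx2, hx⟩, hF⟩ := ht
  have hac := A.lt
  have hU := left_TU h A h1 h2
  have hD : ∀ y, x ≤ y → y ≤ t → TD m C l y := fun y hy1 hy2 =>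
    span_D h hx1 hx2 (by omega) hx hy1 hy2
  have hne1 : t ≠ a + 1 + m := by
    rintro rfl
    exact not_both h (by omega) (by omega) hU (hD _ (by omega) le_rfl)
  have hne2 : t - 1 ≠ a + 1 + m := by
    intro h3
    rw [← h3] at hU
    exact not_both h (by omega) (by omega) hU (hD _ (by omega) (by omega))
  have hD1 : TD m C l (t - 1) := hD _ (by omega) (by omega)
  refine ⟨by omega, ?_, ?_⟩
  · intro k hk
    obtain ⟨k', hk1, hk2, hk3⟩ := norm3 h hk
    have h4 : k' ≠ t - 1 := by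
      rintro rfl
      exact (h.ne _ _ _ hk3).2.2 (by simp)
    rcases lt_or_gt_of_ne h4 with h5 | h5
    · exact hF (t - 1) (by omega) (by omega) ⟨k', hk1, h5, hk3⟩
    · exact not_both h (by omega) (by omega) ⟨k', hk1, hk2, Or.inl ⟨h5, hk3⟩⟩ hD1
  · intro k hk
    obtain ⟨k', hk1, hk2, hk3⟩ := norm3 h hk
    have h4 : k' ≠ t - 2 := by
      rintro rfl
      exact (h.ne _ _ _ hk3).2.2 (by simp)
    rcases lt_or_gt_of_ne h4 with h5 | h5
    · exact hF (t - 2) (by omega) (by omega) ⟨k', hk1, h5, hk3⟩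
    · exact not_both h (by omega) (by omega)
        (span_U h (by omega) (by omega) hk2 hk3 (by omega) (by omega)) hD1

end H40C
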