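import Pool.Agent.Lib.H40C.I1B
import Pool.Agent.Lib.H40C.I2Defs

set_option autoImplicit false

namespace H40C

variable {m : ℤ} {C : ℤ → ℤ → ℤ → Prop}

/-- (I2C) PROOF.  Let `C l t x`, `l < x < t`.  `x ≠ l + 1` by `left_not` (`y = t`, `l' = l + 1`).  `coU`
in base `t - m` with `l < l+1 < x` (`t - m < l` as `t ≤ c + m`; `x < t = (t-m) + m`) from `C (t-m) l x`:
`C (t-m) l (l+1)`, that is `C l t (l+1)`, excluded by `left_not`, or `C (t-m) (l+1) x`, that is
`C (l+1) t x`: `DS C (l+1) t`.  So the first position of `l + 1` is `≤ t`. -/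
theorem first_mono (h : Sys m C) {a c : ℤ} (A : Arc m C a c) {l t t' : ℤ} (h1 : c + 1 ≤ l)
    (h2 : l + 1 ≤ a + m) (ht : First m C a c l t) (ht' : First m C a c (l + 1) t') : t' ≤ t := by
  obtain ⟨ha, hc, ⟨x, hlx, hxt, hC⟩, -⟩ := ht
  have hno : ¬ C l t (l + 1) := left_not h A h1 (by omega) h2 ha hc
  have hx : l + 1 < x := by
    rcases lt_or_eq_of_le (show l + 1 ≤ x by omega) with h3 | h3
    · exact h3
    · rw [← h3] at hC
      exact absurd hC hno
  have hper : ∀ j k, C (t - m) j k ↔ C t j k := by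
    intro j k
    have h3 := h.per (t - m) j k
    rw [sub_add_cancel] at h3
    exact h3.symm
  have h4 : C (t - m) l x := (hper l x).2 (h.symm _ _ _ hC)
  have h5 := h.coU (t - m) l (l + 1) x (by omega) (by omega) hx (by omega) h4
  have h6 : C (l + 1) t x := by
    rcases h5 with h5 | h5
    · exact absurd (h.symm _ _ _ ((hper _ _).1 h5)) hno
    · exact h.symm _ _ _ ((hper _ _).1 h5)
  by_contra h7
  push Not at h7
  exact ht'.2.2.2 t ha h7 ⟨x, hx, hxt, h6⟩

end H40C
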