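import Pool.Agent.Lib.H40C.I1C
import Pool.Agent.Lib.H40C.I2Defs

set_option autoImplicit false

namespace H40C

variable {m : ℤ} {C : ℤ → ℤ → ℤ → Prop}

/-- (I2D) PROOF.  Let `w ∈ (l, l+m)` be the LARGEST witness of `(l, l+1)` (there is one, `norm3`; by
`left_wit` all are in `(a+1+m, c+m)`).  `[l+1, w]` is touched by `U` in base `l` (`bad_TU`).  Let
`C l t x`, `l < x < t`; `x` is touched by `D` in base `l`, so `x > w` (`not_both`), and `x` is no witness
of `(l, l+1)`.  `coD` in base `l + 1` with `w < x < l + m` from `C (l+1) (l+m) w` (`symm`, `per2`):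
`C (l+1) x w` (then `DS C (l+1) x`, so `t' ≤ x < t`; `x > w > a+1+m`) or `C (l+1) (l+m) x`, that is
`C l (l+1) x`: excluded. -/
theorem first_strict (h : Sys m C) {a c : ℤ} (A : Arc m C a c) {l t t' : ℤ} (h1 : c + 1 ≤ l)
    (h2 : l + 1 ≤ a + m) (ht : First m C a c l t) (ht' : First m C a c (l + 1) t')
    (hb : Bad C l) : t' < t := by
  obtain ⟨w0, hw0⟩ := hb
  obtain ⟨w1, hw1a, hw1b, hw1⟩ := norm3 h hw0
  obtain ⟨w, ⟨hwa, hwb, hw⟩, hmax⟩ : ∃ w, (l < w ∧ w < l + m ∧ C l (l + 1) w) ∧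
      ∀ z, (l < z ∧ z < l + m ∧ C l (l + 1) z) → z ≤ w := by
    classical
    exact Int.exists_greatest_of_bdd (P := fun w => l < w ∧ w < l + m ∧ C l (l + 1) w)
      ⟨l + m, fun z hz => le_of_lt hz.2.1⟩ ⟨w1, hw1a, hw1b, hw1⟩
  obtain ⟨hw2, hw3⟩ := left_wit h A h1 h2 hwa hwb hw
  obtain ⟨ht1, ht2, ⟨x, hx1, hx2, hx⟩, ht3⟩ := ht
  obtain ⟨ht1', ht2', hDS', ht3'⟩ := ht'
  have hlm : x < l + m := by omega
  have hTD : TD m C l x := ⟨t, by omega, by omega, Or.inl ⟨hx2, hx⟩⟩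
  have hwx : w < x := by
    by_contra hcon
    exact not_both h hx1 hlm (bad_TU h (by omega) hwb hw (by omega) (by omega)) hTD
  have hsym : C (l + 1) (l + m) w := (per2 h _ _ _).2 (h.symm _ _ _ hw)
  rcases h.coD (l + 1) w x (l + m) (by omega) hwx hlm (by omega) hsym with h3 | h3
  · by_contra hcon
    exact ht3' x (by omega) (by omega) ⟨w, by omega, hwx, h3⟩
  · have h4 : C l (l + 1) x := h.symm _ _ _ ((per2 h _ _ _).1 h3)
    have := hmax x ⟨hx1, hlm, h4⟩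
    omega

end H40C
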