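import Pool.Agent.Lib.H40C.I2A
import Pool.Agent.Lib.H40C.I2B
import Pool.Agent.Lib.H40C.I2C
import Pool.Agent.Lib.H40C.I2D

set_option autoImplicit false

namespace H40C

variable {m : ℤ} {C : ℤ → ℤ → ℤ → Prop}

/-- (I2) assembly.  PROOF.  `t l` by choice from `exists_first` (`if` the bounds hold), then
`first_good`, `first_mono`, `first_strict` (contrapositive: `¬ Bad C l` is `Gd C l (l+1)`). -/
theorem exists_t (h : Sys m C) {a c : ℤ} (A : Arc m C a c) : ∃ t : ℤ → ℤ,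
    (∀ l, c + 1 ≤ l → l ≤ a + m →
      a + m + 3 ≤ t l ∧ t l ≤ c + m ∧ Gd C l (t l - 1) ∧ Gd C l (t l - 2)) ∧
    (∀ l, c + 1 ≤ l → l + 1 ≤ a + m → t (l + 1) ≤ t l) ∧
    ∀ l, c + 1 ≤ l → l + 1 ≤ a + m → t (l + 1) = t l → Gd C l (l + 1) := by
  classical
  have key : ∀ l : ℤ, ∃ t : ℤ, c + 1 ≤ l → l ≤ a + m → First m C a c l t := by
    intro l
    by_cases h1 : c + 1 ≤ l ∧ l ≤ a + m
    · obtain ⟨t, ht⟩ := exists_first h A h1.1 h1.2
      exact ⟨t, fun _ _ => ht⟩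
    · exact ⟨0, fun h2 h3 => absurd ⟨h2, h3⟩ h1⟩
  choose t ht using key
  refine ⟨t, ?_, ?_, ?_⟩
  · intro l h1 h2
    have hF := ht l h1 h2
    obtain ⟨g1, g2, g3⟩ := first_good h A h1 h2 hF
    exact ⟨g1, hF.2.1, g2, g3⟩
  · intro l h1 h2
    exact first_mono h A h1 h2 (ht l h1 (by omega)) (ht (l + 1) (by omega) h2)
  · intro l h1 h2 he k hk
    have hlt := first_strict h A h1 h2 (ht l h1 (by omega)) (ht (l + 1) (by omega) h2) ⟨k, hk⟩
    omega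

end H40C
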