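import Pool.Agent.Lib.H40C.I1A
import Pool.Agent.Lib.H40C.I2Defs

set_option autoImplicit false

namespace H40C

variable {m : ℤ} {C : ℤ → ℤ → ℤ → Prop}

/-- (I2A) PROOF.  `left_D` gives `DS C l (c + m)` (`l ≤ a + m < x`); least such integer in
`[a+1+m, c+m]` (`Int.exists_least_of_bdd` or `Nat.find` on `t = a+1+m+k`). -/
theorem exists_first (h : Sys m C) {a c : ℤ} (A : Arc m C a c) {l : ℤ} (h1 : c + 1 ≤ l)
    (h2 : l ≤ a + m) : ∃ t, First m C a c l t := by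
  classical
  obtain ⟨x, hx1, hx2, hx3⟩ := left_D h A h1 h2
  have hDS : DS C l (c + m) := ⟨x, by omega, hx2, hx3⟩
  have hac := A.lt
  obtain ⟨t, ⟨ht1, ht2⟩, ht3⟩ := Int.exists_least_of_bdd (P := fun y => a + 1 + m ≤ y ∧ DS C l y)
    ⟨a + 1 + m, fun z hz => hz.1⟩ ⟨c + m, by omega, hDS⟩
  refine ⟨t, ht1, ht3 _ ⟨by omega, hDS⟩, ht2, ?_⟩
  intro y hy1 hy2 hy3
  have := ht3 y ⟨hy1, hy3⟩
  omega

end H40C
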