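import Pool.Agent.Lib.H40C.Defs

set_option autoImplicit false

namespace H40C

variable {G : ℤ → ℤ → Prop}

/-- (J1A) one step to the right.  PROOF.  direct from the definitions (`head?` of `L` is `cur`, so
`L = cur :: L0` and `List.isChain_cons_cons`). -/
theorem step_right {lo hi cur : ℤ} {L : List ℤ} (hL : PathOn G lo hi cur L) (hlh : lo ≤ hi)
    (hg : G (hi + 1) cur) : PathOn G lo (hi + 1) (hi + 1) ((hi + 1) :: L) := by
  refine ⟨fun z => ?_, rfl, ?_, ?_⟩
  · rw [List.mem_cons, hL.mem z]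
    omega
  · obtain ⟨L0, hL0⟩ := List.head?_eq_some_iff.1 hL.head
    have h := hL.chain
    rw [hL0] at h ⊢
    exact List.isChain_cons_cons.2 ⟨hg, h⟩
  · refine ⟨Or.inr fun p hp => ?_, hL.nest⟩
    have h := (hL.mem p).1 hp
    omega

/-- (J1A) one step to the left. -/
theorem step_left {lo hi cur : ℤ} {L : List ℤ} (hL : PathOn G lo hi cur L) (hlh : lo ≤ hi)
    (hg : G (lo - 1) cur) : PathOn G (lo - 1) hi (lo - 1) ((lo - 1) :: L) := by
  refine ⟨fun z => ?_, rfl, ?_, ?_⟩
  · rw [List.mem_cons, hL.mem z]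
    omega
  · obtain ⟨L0, hL0⟩ := List.head?_eq_some_iff.1 hL.head
    have h := hL.chain
    rw [hL0] at h ⊢
    exact List.isChain_cons_cons.2 ⟨hg, h⟩
  · refine ⟨Or.inl fun p hp => ?_, hL.nest⟩
    have h := (hL.mem p).1 hp
    omega

/-- (J1A) one vertex. -/
theorem single (G : ℤ → ℤ → Prop) (p : ℤ) : PathOn G p p p [p] := by
  refine ⟨fun z => ?_, rfl, List.isChain_singleton p, ?_⟩
  · rw [List.mem_singleton]
    omega
  · exact ⟨Or.inl fun q hq => absurd hq List.not_mem_nil, trivial⟩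

/-- (J1A) PROOF.  Induction on `r - p`: `single`, `step_right`. -/
theorem line (hG : ∀ i j, G i j → G j i) {p r : ℤ} (hpr : p ≤ r)
    (hright : ∀ i, p ≤ i → i + 1 ≤ r → G i (i + 1)) : ∃ L, PathOn G p r r L := by
  have key : ∀ n : ℕ, p + n ≤ r → ∃ L, PathOn G p (p + n) (p + n) L := by
    intro n
    induction n with
    | zero =>
      intro _
      have h : p + ((0 : ℕ) : ℤ) = p := by simp
      rw [h]
      exact ⟨[p], single G p⟩
    | succ n ih =>
      intro hn
      have h1 : p + ((n + 1 : ℕ) : ℤ) = p + (n : ℤ) + 1 := by push_cast; ring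
      rw [h1] at hn ⊢
      obtain ⟨L, hL⟩ := ih (by omega)
      exact ⟨_, step_right hL (by omega) (hG _ _ (hright _ (by omega) hn))⟩
  obtain ⟨L, hL⟩ := key (r - p).toNat (by omega)
  have h : p + (((r - p).toNat : ℕ) : ℤ) = r := by omega
  rw [h] at hL
  exact ⟨L, hL⟩

end H40C
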