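import Pool.Agent.Lib.H40C.J1A

set_option autoImplicit false

namespace H40C

variable {G : ℤ → ℤ → Prop}

private theorem mono_aux {p q : ℤ} (t : ℤ → ℤ) (hmono : ∀ l, p ≤ l → l + 1 ≤ q → t (l + 1) ≤ t l)
    {l : ℤ} (hl : p ≤ l) : ∀ l', l ≤ l' → l' ≤ q → t l' ≤ t l := by
  intro l' hll
  induction l', hll using Int.leInduction with
  | base => intro _; exact le_rfl
  | succ k hk ih =>
    intro hkq
    exact (hmono k (by omega) hkq).trans (ih (by omega))

private theorem grow_aux (hG : ∀ i j, G i j → G j i) {p q r : ℤ} (t : ℤ → ℤ)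
    (ht : ∀ l, p ≤ l → l ≤ q → q + 3 ≤ t l ∧ t l ≤ r ∧ G l (t l - 1) ∧ G l (t l - 2))
    (hmono : ∀ l, p ≤ l → l + 1 ≤ q → t (l + 1) ≤ t l)
    (hstep : ∀ l, p ≤ l → l + 1 ≤ q → t (l + 1) = t l → G l (l + 1))
    (hright : ∀ i, q + 1 ≤ i → i + 1 ≤ r → G i (i + 1)) (n : ℕ) :
    (∀ (lo hi : ℤ) (L : List ℤ), p ≤ lo → lo ≤ q + 1 → q + 1 ≤ hi → hi ≤ r →
      (lo - p) + (r - hi) = n → PathOn G lo hi hi L → (∀ l, lo ≤ l → l ≤ q → t l ≤ hi + 1) →
      (∀ l, p ≤ l → l < lo → hi + 2 ≤ t l) → ∃ L cur, PathOn G p r cur L) ∧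
    (∀ (lo hi : ℤ) (L : List ℤ), p ≤ lo → lo ≤ q → q + 1 ≤ hi → hi ≤ r →
      (lo - p) + (r - hi) = n → PathOn G lo hi lo L → t lo = hi + 2 →
      (∀ l, lo ≤ l → l ≤ q → t l ≤ hi + 2) →
      (∀ l, p ≤ l → l < lo → hi + 2 ≤ t l) → ∃ L cur, PathOn G p r cur L) := by
  induction n with
  | zero =>
    refine ⟨fun lo hi L h1 h2 h3 h4 h5 hL h6 h7 => ?_, fun lo hi L h1 h2 h3 h4 h5 hL h6 h7 h8 => ?_⟩
    · have e1 : lo = p := by push_cast at h5; omega
      have e2 : hi = r := by push_cast at h5; omega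
      subst e1; subst e2
      exact ⟨L, _, hL⟩
    · have e1 : lo = p := by push_cast at h5; omega
      have e2 : hi = r := by push_cast at h5; omega
      subst e1; subst e2
      exact ⟨L, _, hL⟩
  | succ n ih =>
    obtain ⟨ihR, ihS⟩ := ih
    refine ⟨fun lo hi L h1 h2 h3 h4 h5 hL h6 h7 => ?_, fun lo hi L h1 h2 h3 h4 h5 hL h6 h7 h8 => ?_⟩
    · push_cast at h5
      by_cases hA : p ≤ lo - 1 ∧ t (lo - 1) = hi + 2
      · obtain ⟨hA1, hA2⟩ := hA
        have hg : G (lo - 1) hi := by
          have h9 := (ht (lo - 1) hA1 (by omega)).2.2.2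
          have e : t (lo - 1) - 2 = hi := by omega
          rwa [e] at h9
        refine ihS (lo - 1) hi _ hA1 (by omega) h3 h4 (by omega) (step_left hL (by omega) hg) hA2
          (fun l hl hlq => ?_) (fun l hl hlo => h7 l hl (by omega))
        rcases eq_or_lt_of_le hl with h9 | h9
        · rw [← h9, hA2]
        · have := h6 l (by omega) hlq
          omega
      · have hfar : ∀ l, p ≤ l → l < lo → hi + 3 ≤ t l := by
          intro l hl hlo
          have h9 := mono_aux t hmono hl (lo - 1) (by omega) (by omega)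
          have h10 := h7 (lo - 1) (by omega) (by omega)
          have h11 : t (lo - 1) ≠ hi + 2 := fun h => hA ⟨by omega, h⟩
          omega
        by_cases hhr : hi < r
        · refine ihR lo (hi + 1) _ h1 h2 (by omega) (by omega) (by omega)
            (step_right hL (by omega) (hG _ _ (hright hi h3 (by omega))))
            (fun l hl hlq => ?_) (fun l hl hlo => ?_)
          · have := h6 l hl hlq
            omega
          · have := hfar l hl hlo
            omega
        · have e2 : hi = r := by omega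
          by_cases hlp : lo = p
          · subst hlp; subst e2
            exact ⟨L, _, hL⟩
          · exfalso
            have h9 := hfar (lo - 1) (by omega) (by omega)
            have h10 := (ht (lo - 1) (by omega) (by omega)).2.1
            omega
    · push_cast at h5
      have htr := (ht lo h1 h2).2.1
      by_cases hA : p ≤ lo - 1 ∧ t (lo - 1) = hi + 2
      · obtain ⟨hA1, hA2⟩ := hA
        have hg : G (lo - 1) lo := by
          have h9 := hstep (lo - 1) hA1 (by omega) (by
            rw [sub_add_cancel, h6, hA2])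
          rwa [sub_add_cancel] at h9
        refine ihS (lo - 1) hi _ hA1 (by omega) h3 h4 (by omega) (step_left hL (by omega) hg) hA2
          (fun l hl hlq => ?_) (fun l hl hlo => h8 l hl (by omega))
        rcases eq_or_lt_of_le hl with h9 | h9
        · rw [← h9, hA2]
        · exact h7 l (by omega) hlq
      · have hfar : ∀ l, p ≤ l → l < lo → hi + 3 ≤ t l := by
          intro l hl hlo
          have h9 := mono_aux t hmono hl (lo - 1) (by omega) (by omega)
          have h10 := h8 (lo - 1) (by omega) (by omega)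
          have h11 : t (lo - 1) ≠ hi + 2 := fun h => hA ⟨by omega, h⟩
          omega
        have hg : G (hi + 1) lo := by
          have h9 := (ht lo h1 h2).2.2.1
          have e : t lo - 1 = hi + 1 := by omega
          rw [e] at h9
          exact hG _ _ h9
        refine ihR lo (hi + 1) _ h1 (by omega) (by omega) (by omega) (by omega)
          (step_right hL (by omega) hg) (fun l hl hlq => ?_) (fun l hl hlo => ?_)
        · have := h7 l hl hlq
          omega
        · have := hfar l hl hlo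
          omega

/-- (J1B) the main construction.
PROOF.  Induction on the number of missing elements `(lo - p) + (r - hi)`.  State `R lo hi`
(`p ≤ lo ≤ q + 1`, `q + 1 ≤ hi ≤ r`): there is a path on `[lo, hi]` with current end `hi`,
`t l ≤ hi + 1` for `lo ≤ l ≤ q` and `hi + 2 ≤ t l` for `p ≤ l < lo`.  Start: `R (q+1) (q+1)` with the
list `[q+1]` (`t l ≥ q + 3`).  State `S lo hi` (`p ≤ lo ≤ q`): path on `[lo, hi]` with current end `lo`,
`t lo = hi + 2`, `t l ≤ hi + 2` for `lo ≤ l ≤ q` and `hi + 2 ≤ t l` for `p ≤ l < lo`.  From `R lo hi`: if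
`lo - 1 ≥ p` and `t (lo-1) = hi + 2` go left (`G (lo-1) hi` as `hi = t - 2`) to `S (lo-1) hi`; otherwise
`hi + 3 ≤ t l` for all `p ≤ l < lo` (monotone), and if `hi < r` go right (`hright`) to `R lo (hi+1)`;
if `hi = r` then `t l ≤ r` shows `lo = p`: finished.  From `S lo hi`: if `lo - 1 ≥ p` and
`t (lo-1) = hi + 2` go left (`hstep`) to `S (lo-1) hi`; otherwise go right (`G lo (hi+1)` as
`hi + 1 = t lo - 1`; `hi + 2 = t lo ≤ r`) to `R lo (hi+1)`. -/
theorem grow (hG : ∀ i j, G i j → G j i) {p q r : ℤ} (hpq : p ≤ q) (hqr : q + 1 ≤ r) (t : ℤ → ℤ)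
    (ht : ∀ l, p ≤ l → l ≤ q → q + 3 ≤ t l ∧ t l ≤ r ∧ G l (t l - 1) ∧ G l (t l - 2))
    (hmono : ∀ l, p ≤ l → l + 1 ≤ q → t (l + 1) ≤ t l)
    (hstep : ∀ l, p ≤ l → l + 1 ≤ q → t (l + 1) = t l → G l (l + 1))
    (hright : ∀ i, q + 1 ≤ i → i + 1 ≤ r → G i (i + 1)) : ∃ L cur, PathOn G p r cur L := by
  obtain ⟨n, hn⟩ := Int.eq_ofNat_of_zero_le (a := (q + 1 - p) + (r - (q + 1))) (by omega)
  exact (grow_aux hG t ht hmono hstep hright n).1 (q + 1) (q + 1) [q + 1] (by omega) le_rfl le_rfl
    hqr hn (single G (q + 1)) (fun l hl hlq => by omega) (fun l hl hlq => by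
      have := (ht l hl (by omega)).1
      omega)

end H40C
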