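import Pool.Agent.Lib.H40C.Defs

set_option autoImplicit false

namespace H40C

open H53P

set_option synthInstance.maxSize 100000 in
/-- brute force over the crossings of `K_5` (`xvabc` is the crossing of `va` and `bc`) -/
theorem brute5 :
    ∀ xvabc xvbac xvcab : Bool, (xvabc = true → xvbac = false) → (xvabc = true → xvcab = false) → (xvbac = true → xvcab = false) →
    ∀ xvabd xvbad xvdab : Bool, (xvabd = true → xvbad = false) → (xvabd = true → xvdab = false) → (xvbad = true → xvdab = false) →
    ∀ xvacd xvcad xvdac : Bool, (xvacd = true → xvcad = false) → (xvacd = true → xvdac = false) → (xvcad = true → xvdac = false) →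
    ∀ xvbcd xvcbd xvdbc : Bool, (xvbcd = true → xvcbd = false) → (xvbcd = true → xvdbc = false) → (xvcbd = true → xvdbc = false) →
    ∀ xabcd xacbd xadbc : Bool, (xabcd = true → xacbd = false) → (xabcd = true → xadbc = false) → (xacbd = true → xadbc = false) →
    ((((xvabd ^^ xvcbd) ^^ xvbac) ^^ xvdac) ^^ xacbd) = true →
    ((((xvacd ^^ xvbcd) ^^ xvcab) ^^ xvdab) ^^ xabcd) = false →
    ((((xvabc ^^ xvdbc) ^^ xvbad) ^^ xvcad) ^^ xadbc) = false →
    ¬ (xvcab = true ∧ xvcbd = true ∧ xvcad = true) →
    ¬ (xvbac = true ∧ xacbd = true ∧ xvdac = true) →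
    ¬ (xvabd = true ∧ xacbd = true ∧ xvcbd = true) →
    (xvbac = true → xvdab = true → xvdac = true) →
    (xvdac = true → xvbad = true → xvbac = true) →
    (xvabd = true → xvcab = true → xvcbd = true) →
    (xvcbd = true → xvacd = true → xvabd = true) →
    (xvbac = false → xvabd = false → ((xabcd ^^ xvbcd) ^^ xvacd) = true → xacbd = false) →
    (xvbac = false → xvcad = false → ((xvabd ^^ xacbd) ^^ xvcbd) = true → xvbad = false) →
    (xvcab = false → xvacd = false → ((xacbd ^^ xvcbd) ^^ xvabd) = true → xabcd = false) →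
    (xvabd = false → xvdac = false → ((xadbc ^^ xvabc) ^^ xvdbc) = true → xacbd = false) →
    (xvabc = false → xabcd = false → ((xvdac ^^ xvdbc) ^^ xvdab) = true → xvacd = false) →
    (xvdab = false → xacbd = false → ((xvcad ^^ xvcab) ^^ xvcbd) = true → xvdac = false) →
    (xvbcd = false → xacbd = false → ((xvabc ^^ xvacd) ^^ xvabd) = true → xvbac = false) →
    ¬ ((xvcab = true ∨ xvdab = true ∨ xvdac = true) ∧
      (xvbac = true ∨ xvbad = true ∨ xvcad = true)) ∧
    (xvdab = true → xvcab = true ∨ xvdac = true) ∧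
    (xvbad = true → xvbac = true ∨ xvcad = true) ∧
    (xvcab = true → ¬ xvacd = true) := by
  decide +kernel

variable {V : Type*} (T : Table V)

theorem symm3 (a b c d : V) : T.X a b c d = T.X a b d c := by
  rw [T.symm2 a b c d, T.symm1 c d a b, T.symm2 d c a b]

theorem sep5 {a b c x y : V} (hnd : [a, b, c, x, y].Nodup) (h1 : T.X x a b c = false)
    (h2 : T.X y b c a = false) (h3 : crTX T.X a b c x y = true) : T.X x a y b = false := by
  have hz : ∀ p q r s : V, (p = r ∨ p = s ∨ q = r ∨ q = s) → T.X p q r s = false := by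
    intro p q r s h
    by_contra hcon
    have := T.ne p q r s (by simpa using hcon)
    tauto
  simp only [List.nodup_cons, List.mem_cons, List.not_mem_nil, not_or, or_false,
    List.nodup_nil, and_true, not_false_eq_true] at hnd
  obtain ⟨⟨hab, hac, hax, hay⟩, ⟨hbc, hbx, hby⟩, ⟨hcx, hcy⟩, hxy⟩ := hnd
  exact T.sep a b c hab hbc (Ne.symm hac) x y a b (Ne.symm hax) (Ne.symm hbx) (Ne.symm hcx)
    (Ne.symm hay) (Ne.symm hby) (Ne.symm hcy) (hz _ _ _ _ (by tauto)) h1
    (hz _ _ _ _ (by tauto)) (hz _ _ _ _ (by tauto)) (hz _ _ _ _ (by tauto)) h2 h3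

/-- (K1) the local facts in a `K_5` at `v`. -/
theorem local5 {v a b c d : V} (hnd : [v, a, b, c, d].Nodup)
    (h13 : altX T.X v a c b d = true) (h12 : altX T.X v a b c d = false)
    (h14 : altX T.X v a d b c = false) (hv : GoodV T v) :
    ¬ ((T.X a b v c = true ∨ T.X a b v d = true ∨ T.X a c v d = true) ∧
      (T.X a c v b = true ∨ T.X a d v b = true ∨ T.X a d v c = true)) ∧
    (T.X a b v d = true → T.X a b v c = true ∨ T.X a c v d = true) ∧
    (T.X a d v b = true → T.X a c v b = true ∨ T.X a d v c = true) ∧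
    (T.X a b v c = true → ¬ T.X c d v a = true) := by
  have hnd' := hnd
  simp only [List.nodup_cons, List.mem_cons, List.not_mem_nil, not_or, or_false,
    List.nodup_nil, and_true, not_false_eq_true] at hnd'
  obtain ⟨⟨hva, hvb, hvc, hvd⟩, ⟨hab, hac, had⟩, ⟨hbc, hbd⟩, hcd⟩ := hnd'
  have hav := Ne.symm hva
  have hbv := Ne.symm hvb
  have hcv := Ne.symm hvc
  have hdv := Ne.symm hvd
  have hba := Ne.symm hab
  have hca := Ne.symm hac
  have hda := Ne.symm had
  have hcb := Ne.symm hbc
  have hdb := Ne.symm hbd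
  have hdc := Ne.symm hcd
  have n1 : T.X v a c b = T.X v a b c := (symm3 T v a c b)
  have n2 : T.X v a d b = T.X v a b d := (symm3 T v a d b)
  have n3 : T.X v a d c = T.X v a c d := (symm3 T v a d c)
  have n4 : T.X v b c a = T.X v b a c := (symm3 T v b c a)
  have n5 : T.X v b d a = T.X v b a d := (symm3 T v b d a)
  have n6 : T.X v b d c = T.X v b c d := (symm3 T v b d c)
  have n7 : T.X v c b a = T.X v c a b := (symm3 T v c b a)
  have n8 : T.X v c d a = T.X v c a d := (symm3 T v c d a)
  have n9 : T.X v c d b = T.X v c b d := (symm3 T v c d b)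
  have n10 : T.X v d b a = T.X v d a b := (symm3 T v d b a)
  have n11 : T.X v d c a = T.X v d a c := (symm3 T v d c a)
  have n12 : T.X v d c b = T.X v d b c := (symm3 T v d c b)
  have n13 : T.X a b v c = T.X v c a b := (T.symm2 a b v c)
  have n14 : T.X a b v d = T.X v d a b := (T.symm2 a b v d)
  have n15 : T.X a b d c = T.X a b c d := (symm3 T a b d c)
  have n16 : T.X a c v b = T.X v b a c := (T.symm2 a c v b)
  have n17 : T.X a c v d = T.X v d a c := (T.symm2 a c v d)
  have n18 : T.X a c d b = T.X a c b d := (symm3 T a c d b)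
  have n19 : T.X a d v b = T.X v b a d := (T.symm2 a d v b)
  have n20 : T.X a d v c = T.X v c a d := (T.symm2 a d v c)
  have n21 : T.X a d c b = T.X a d b c := (symm3 T a d c b)
  have n22 : T.X b v a c = T.X v b a c := (T.symm1 b v a c)
  have n23 : T.X b v d a = T.X v b a d := ((T.symm1 b v d a).trans (symm3 T v b d a))
  have n24 : T.X b a v c = T.X v c a b := ((T.symm1 b a v c).trans (T.symm2 a b v c))
  have n25 : T.X b a c v = T.X v c a b := (((T.symm1 b a c v).trans (symm3 T a b c v)).trans (T.symm2 a b v c))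
  have n26 : T.X b a d c = T.X a b c d := ((T.symm1 b a d c).trans (symm3 T a b d c))
  have n27 : T.X b c v d = T.X v d b c := (T.symm2 b c v d)
  have n28 : T.X b c a v = T.X v a b c := ((symm3 T b c a v).trans (T.symm2 b c v a))
  have n29 : T.X b c d a = T.X a d b c := ((symm3 T b c d a).trans (T.symm2 b c a d))
  have n30 : T.X b d v a = T.X v a b d := (T.symm2 b d v a)
  have n31 : T.X b d v c = T.X v c b d := (T.symm2 b d v c)
  have n32 : T.X b d a v = T.X v a b d := ((symm3 T b d a v).trans (T.symm2 b d v a))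
  have n33 : T.X b d a c = T.X a c b d := (T.symm2 b d a c)
  have n34 : T.X b d c v = T.X v c b d := ((symm3 T b d c v).trans (T.symm2 b d v c))
  have n35 : T.X b d c a = T.X a c b d := ((symm3 T b d c a).trans (T.symm2 b d a c))
  have n36 : T.X c a v d = T.X v d a c := ((T.symm1 c a v d).trans (T.symm2 a c v d))
  have n37 : T.X c a b v = T.X v b a c := (((T.symm1 c a b v).trans (symm3 T a c b v)).trans (T.symm2 a c v b))
  have n38 : T.X c a b d = T.X a c b d := (T.symm1 c a b d)
  have n39 : T.X c a d b = T.X a c b d := ((T.symm1 c a d b).trans (symm3 T a c d b))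
  have n40 : T.X c d v a = T.X v a c d := (T.symm2 c d v a)
  have n41 : T.X c d a b = T.X a b c d := (T.symm2 c d a b)
  have n42 : T.X c d b v = T.X v b c d := ((symm3 T c d b v).trans (T.symm2 c d v b))
  have n43 : T.X d a c v = T.X v c a d := (((T.symm1 d a c v).trans (symm3 T a d c v)).trans (T.symm2 a d v c))
  have n44 : T.X d b v a = T.X v a b d := ((T.symm1 d b v a).trans (T.symm2 b d v a))
  have n45 : T.X d b v c = T.X v c b d := ((T.symm1 d b v c).trans (T.symm2 b d v c))
  have n46 : T.X d c v a = T.X v a c d := ((T.symm1 d c v a).trans (T.symm2 c d v a))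
  have n47 : T.X d c b a = T.X a b c d := (((T.symm1 d c b a).trans (symm3 T c d b a)).trans (T.symm2 c d a b))
  have g1 := T.one v a b c
  have g2 := T.one v a c b
  have g3 := T.one v b c a
  have g4 := T.one v a b d
  have g5 := T.one v a d b
  have g6 := T.one v b d a
  have g7 := T.one v a c d
  have g8 := T.one v a d c
  have g9 := T.one v c d a
  have g10 := T.one v b c d
  have g11 := T.one v b d c
  have g12 := T.one v c d b
  have g13 := T.one a b c d
  have g14 := T.one a b d c
  have g15 := T.one a c d b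
  have g16 := h13
  have g17 := h12
  have g18 := h14
  have g19 := hv.1 v c a b d (by simp [*]) (by simp)
  have g20 := hv.1 a c v b d (by simp [*]) (by simp)
  have g21 := hv.1 b d v a c (by simp [*]) (by simp)
  have g22 := hv.2 a c b d
  have g23 := hv.2 a c d b
  have g24 := hv.2 b d a c
  have g25 := hv.2 d b c a
  have g26 := sep5 T (a := a) (b := b) (c := v) (x := c) (y := d) (by simp [*])
  have g27 := sep5 T (a := v) (b := a) (c := c) (x := b) (y := d) (by simp [*])
  have g28 := sep5 T (a := a) (b := c) (c := v) (x := b) (y := d) (by simp [*])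
  have g29 := sep5 T (a := d) (b := a) (c := v) (x := b) (y := c) (by simp [*])
  have g30 := sep5 T (a := a) (b := c) (c := b) (x := v) (y := d) (by simp [*])
  have g31 := sep5 T (a := d) (b := a) (c := b) (x := v) (y := c) (by simp [*])
  have g32 := sep5 T (a := b) (b := c) (c := d) (x := v) (y := a) (by simp [*])
  simp only [altX, crTX] at g1 g2 g3 g4 g5 g6 g7 g8 g9 g10 g11 g12 g13 g14 g15 g16 g17 g18 g19 g20 g21 g22 g23 g24 g25 g26 g27 g28 g29 g30 g31 g32
  simp only [n1, n2, n3, n4, n5, n6, n7, n8, n9, n10, n11, n12, n13, n14, n15, n16, n17, n18, n19,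
    n20, n21, n22, n23, n24, n25, n26, n27, n28, n29, n30, n31, n32, n33, n34, n35, n36, n37, n38,
    n39, n40, n41, n42, n43, n44, n45, n46, n47]
    at g1 g2 g3 g4 g5 g6 g7 g8 g9 g10 g11 g12 g13 g14 g15 g16 g17 g18 g19 g20 g21 g22 g23 g24 g25 g26 g27 g28 g29 g30 g31 g32 ⊢
  exact brute5 _ _ _ g1 g2 g3 _ _ _ g4 g5 g6 _ _ _ g7 g8 g9 _ _ _ g10 g11 g12 _ _ _ g13 g14 g15 g16 g17 g18 g19 g20 g21 g22 g23 g24 g25 g26 g27 g28 g29 g30 g31 g32

end H40C
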