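import Pool.Agent.Lib.H40C.G2A
import Pool.Agent.Lib.H40C.I2
import Pool.Agent.Lib.H40C.J1B

set_option autoImplicit false

namespace H40C

variable {m : ℤ} {C : ℤ → ℤ → ℤ → Prop}

/-- (M1) the theorem on star systems.
PROOF.  If there are bad `a < c < a + m`: `choice`, `exists_t`, `grow` with `G = Gd C`, `p = c + 1`,
`q = a + m`, `r = c + m` (`Gd` is symmetric by `symm`; `hright`: `i - m` is in `(a, c)`, not bad by
`Arc.good`, and periodicity).  Otherwise, if some `a` is bad, `line` on `[a+1, a+m]`; if nothing is bad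
`line` on `[0, m-1]`. -/
theorem star_path (h : Sys m C) : ∃ p L cur, PathOn (Gd C) p (p + m - 1) cur L := by
  have hm := h.pos
  have hG : ∀ i j, Gd C i j → Gd C j i := fun i j hij k hk => hij k (h.symm _ _ _ hk)
  by_cases hbad : ∃ a c : ℤ, a < c ∧ c < a + m ∧ Bad C a ∧ Bad C c
  · obtain ⟨a₀, c₀, h1, h2, h3, h4⟩ := hbad
    obtain ⟨a, c, A⟩ := choice h h1 h2 h3 h4
    obtain ⟨t, ht, hmono, hstep⟩ := exists_t h A
    have hac := A.lt
    have hac' := A.lt'
    have hright : ∀ i, a + m + 1 ≤ i → i + 1 ≤ c + m → Gd C i (i + 1) := by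
      intro i hi1 hi2 k hk
      refine A.good (i - m) (by omega) (by omega) ⟨k, ?_⟩
      have e1 : C (i - m + m) (i + 1) k := by
        rw [show i - m + m = i by ring]; exact hk
      have e2 := (h.per _ _ _).1 e1
      have e3 : C (i - m) (i - m + 1 + m) k := by
        rw [show i - m + 1 + m = i + 1 by ring]; exact e2
      exact (per2 h _ _ _).1 e3
    obtain ⟨L, cur, hL⟩ := grow (G := Gd C) hG (p := c + 1) (q := a + m) (r := c + m)
      (by omega) (by omega) t ht hmono hstep hright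
    refine ⟨c + 1, L, cur, ?_⟩
    rw [show c + 1 + m - 1 = c + m by ring]
    exact hL
  · by_cases hb : ∃ a, Bad C a
    · obtain ⟨a, ha⟩ := hb
      have hright : ∀ i, a + 1 ≤ i → i + 1 ≤ a + m → Gd C i (i + 1) := by
        intro i hi1 hi2 k hk
        exact hbad ⟨a, i, by omega, by omega, ha, ⟨k, hk⟩⟩
      obtain ⟨L, hL⟩ := line (G := Gd C) hG (p := a + 1) (r := a + m) (by omega) hright
      refine ⟨a + 1, L, a + m, ?_⟩
      rw [show a + 1 + m - 1 = a + m by ring]
      exact hL
    · have hright : ∀ i, (0 : ℤ) ≤ i → i + 1 ≤ m - 1 → Gd C i (i + 1) := by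
        intro i _ _ k hk
        exact hb ⟨i, k, hk⟩
      obtain ⟨L, hL⟩ := line (G := Gd C) hG (p := 0) (r := m - 1) (by omega) hright
      refine ⟨0, L, m - 1, ?_⟩
      rw [show (0 : ℤ) + m - 1 = m - 1 by ring]
      exact hL

end H40C
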