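import Pool.Agent.Lib.H40C.Defs

set_option autoImplicit false

namespace H40C

open H53P

/-- (R1A) the rotation at `v` as a linear order, sorted.
PROOF.  `T.rot v w` (some `w ≠ v`) gives `ρ : V → ℝ`, injective on the vertices `≠ v`.  Sort
`Finset.univ.erase v` by `ρ` (e.g. `Finset.orderEmbOfFin` of the image under `ρ`, or
`Finset.sort`/`List` insertion sort, or `Fintype.orderIsoFinOfCardEq` for a linear order on the subtype
lifted along `ρ`). -/
theorem exists_sorted {V : Type*} [Fintype V] [DecidableEq V] (T : Table V) (v : V)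
    (hV : 2 ≤ Fintype.card V) : ∃ (ρ : V → ℝ) (σ : Fin (Fintype.card V - 1) → V),
      (∀ i, σ i ≠ v) ∧ (∀ w, w ≠ v → ∃ i, σ i = w) ∧ (∀ i j, ρ (σ i) < ρ (σ j) ↔ i < j) ∧
      ∀ a b x y, a ≠ v → b ≠ v → x ≠ v → y ≠ v → a ≠ b → a ≠ x → a ≠ y → b ≠ x → b ≠ y → x ≠ y →
        altX T.X v a b x y = (btw (ρ a) (ρ b) (ρ x) ^^ btw (ρ a) (ρ b) (ρ y)) := by
  classical
  obtain ⟨w, hw⟩ : ∃ w, w ≠ v := by
    by_contra h
    push Not at h
    have h1 : Fintype.card V ≤ 1 := Fintype.card_le_one_iff.2 fun a b => (h a).trans (h b).symm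
    omega
  obtain ⟨ρ, -, hinj, halt⟩ := T.rot v w hw.symm
  have hcard : ((Finset.univ.erase v).image ρ).card = Fintype.card V - 1 := by
    rw [Finset.card_image_of_injOn, Finset.card_erase_of_mem (Finset.mem_univ v), Finset.card_univ]
    intro a ha b hb hab
    exact hinj a b (Finset.ne_of_mem_erase (Finset.mem_coe.1 ha))
      (Finset.ne_of_mem_erase (Finset.mem_coe.1 hb)) hab
  have hex : ∀ i : Fin (Fintype.card V - 1), ∃ a, a ≠ v ∧
      ρ a = ((Finset.univ.erase v).image ρ).orderEmbOfFin hcard i := by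
    intro i
    have h1 := Finset.orderEmbOfFin_mem ((Finset.univ.erase v).image ρ) hcard i
    obtain ⟨a, ha, ha'⟩ := Finset.mem_image.1 h1
    exact ⟨a, Finset.ne_of_mem_erase ha, ha'⟩
  choose σ hσ hσ' using hex
  refine ⟨ρ, σ, hσ, ?_, ?_, halt⟩
  · intro a ha
    have h1 : ρ a ∈ (Finset.univ.erase v).image ρ :=
      Finset.mem_image_of_mem ρ (Finset.mem_erase.2 ⟨ha, Finset.mem_univ a⟩)
    have h2 : ρ a ∈ Set.range (((Finset.univ.erase v).image ρ).orderEmbOfFin hcard) := by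
      rw [Finset.range_orderEmbOfFin]
      exact Finset.mem_coe.2 h1
    obtain ⟨i, hi⟩ := h2
    exact ⟨i, hinj _ _ (hσ i) ha ((hσ' i).trans hi)⟩
  · intro i j
    rw [hσ', hσ']
    exact (((Finset.univ.erase v).image ρ).orderEmbOfFin hcard).lt_iff_lt

end H40C
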