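import Pool.Agent.Lib.H40C.Defs

set_option autoImplicit false

namespace H40C

variable {m : ℤ} {C : ℤ → ℤ → ℤ → Prop}

/-- `b + m` as base: PROOF. `per`, `symm`. -/
theorem per2 (h : Sys m C) (i j k : ℤ) : C i (j + m) k ↔ C i j k := by
  constructor
  · intro H; exact h.symm _ _ _ ((h.per _ _ _).1 (h.symm _ _ _ H))
  · intro H; exact h.symm _ _ _ ((h.per _ _ _).2 (h.symm _ _ _ H))

private theorem s1_mul (h : Sys m C) (i j k t : ℤ) : C i j (k + m * t) ↔ C i j k := by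
  induction t using Int.induction_on with
  | zero => rw [mul_zero, add_zero]
  | succ t ih =>
    have e : k + m * ((t : ℤ) + 1) = (k + m * t) + m := by ring
    rw [e, h.per3, ih]
  | pred t ih =>
    rw [← ih, ← h.per3 i j (k + m * (-(t : ℤ) - 1))]
    have e : k + m * (-(t : ℤ) - 1) + m = k + m * (-(t : ℤ)) := by ring
    rw [e]

/-- witnesses can be normalised.  PROOF.  `k' = b + (k - b) % m`; multiples of `m` by `per3`
(induction on the multiple); `k' ≠ b` since `k ≢ i = b`. -/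
theorem norm3 (h : Sys m C) {i j k : ℤ} (H : C i j k) : ∃ k', i < k' ∧ k' < i + m ∧ C i j k' := by
  have hm := h.pos
  have h1 := Int.emod_nonneg (k - i) hm.ne'
  have h2 := Int.emod_lt_of_pos (k - i) hm
  have h3 := Int.mul_ediv_add_emod (k - i) m
  have h4 : i + (k - i) % m = k + m * (-((k - i) / m)) := by
    rw [mul_neg]
    omega
  have h5 : C i j (i + (k - i) % m) := by
    rw [h4, s1_mul h]
    exact H
  have h6 : (k - i) % m ≠ 0 := by
    intro h7
    have h8 := (h.ne _ _ _ h5).2.1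
    apply h8
    rw [h7]
    simp
  exact ⟨i + (k - i) % m, by omega, by omega, h5⟩

/-- no vertex is touched by `U` and by `D`.  PROOF.  Let `z` be the partner in the `U` relation and
`z'` the one in the `D` relation.  If `z = z'` use `one`; otherwise sort `y, z, z'` and use `mix`. -/
theorem not_both (h : Sys m C) {b y : ℤ} (hb : b < y) (hy : y < b + m) (hU : TU m C b y)
    (hD : TD m C b y) : False := by
  obtain ⟨z, hz1, hz2, hU⟩ := hU
  obtain ⟨z', hz1', hz2', hD⟩ := hD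
  rcases hU with ⟨hyz, hU⟩ | ⟨hzy, hU⟩
  · rcases hD with ⟨hyz', hD⟩ | ⟨hzy', hD⟩
    · rcases lt_trichotomy z z' with hlt | rfl | hlt
      · exact h.mix b y z z' hb hyz hlt hz2' ⟨Or.inl hU, Or.inr (Or.inl hD)⟩
      · exact h.one _ _ _ hU hD
      · exact h.mix b y z' z hb hyz' hlt hz2 ⟨Or.inr (Or.inl hU), Or.inl hD⟩
    · exact h.mix b z' y z hz1' hzy' hyz hz2 ⟨Or.inr (Or.inr hU), Or.inl hD⟩
  · rcases hD with ⟨hyz', hD⟩ | ⟨hzy', hD⟩
    · exact h.mix b z y z' hz1 hzy hyz' hz2' ⟨Or.inl hU, Or.inr (Or.inr hD)⟩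
    · rcases lt_trichotomy z z' with hlt | rfl | hlt
      · exact h.mix b z z' y hz1 hlt hzy' hy ⟨Or.inr (Or.inl hU), Or.inr (Or.inr hD)⟩
      · exact h.one _ _ _ hU hD
      · exact h.mix b z' z y hz1' hlt hzy hy ⟨Or.inr (Or.inr hU), Or.inr (Or.inl hD)⟩

/-- the span of a `U` relation is touched.  PROOF.  `y = x`, `y = z` clear, otherwise `coU`. -/
theorem span_U (h : Sys m C) {b x y z : ℤ} (hb : b < x) (hxz : x < z) (hz : z < b + m)
    (hC : C b x z) (hxy : x ≤ y) (hyz : y ≤ z) : TU m C b y := by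
  rcases eq_or_lt_of_le hxy with rfl | hxy'
  · exact ⟨z, by omega, hz, Or.inl ⟨hxz, hC⟩⟩
  · rcases eq_or_lt_of_le hyz with rfl | hyz'
    · exact ⟨x, hb, by omega, Or.inr ⟨hxz, hC⟩⟩
    · rcases h.coU b x y z hb hxy' hyz' hz hC with h1 | h1
      · exact ⟨x, hb, by omega, Or.inr ⟨hxy', h1⟩⟩
      · exact ⟨z, by omega, hz, Or.inl ⟨hyz', h1⟩⟩

/-- the span of a `D` relation is touched.  PROOF.  `y = x`, `y = z` clear, otherwise `coD`. -/
theorem span_D (h : Sys m C) {b x y z : ℤ} (hb : b < x) (hxz : x < z) (hz : z < b + m)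
    (hC : C b z x) (hxy : x ≤ y) (hyz : y ≤ z) : TD m C b y := by
  rcases eq_or_lt_of_le hxy with rfl | hxy'
  · exact ⟨z, by omega, hz, Or.inl ⟨hxz, hC⟩⟩
  · rcases eq_or_lt_of_le hyz with rfl | hyz'
    · exact ⟨x, hb, by omega, Or.inr ⟨hxz, hC⟩⟩
    · rcases h.coD b x y z hb hxy' hyz' hz hC with h1 | h1
      · exact ⟨x, hb, by omega, Or.inr ⟨hxy', h1⟩⟩
      · exact ⟨z, by omega, hz, Or.inl ⟨hyz', h1⟩⟩

/-- a bad short edge, base `a`.  PROOF.  `span_U` with `x = a + 1`, `z = w`. -/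
theorem bad_TU (h : Sys m C) {a w y : ℤ} (hw1 : a + 1 < w) (hw2 : w < a + m)
    (hw : C a (a + 1) w) (h1 : a + 1 ≤ y) (h2 : y ≤ w) : TU m C a y :=
  span_U h (by omega) hw1 hw2 hw h1 h2

/-- a bad short edge, base `a + 1`.  PROOF.  `span_D` with `b = a + 1`, `x = w`, `z = a + m`;
`C (a+1) (a+m) w` by `symm` and `per2`. -/
theorem bad_TD (h : Sys m C) {a w y : ℤ} (hw1 : a + 1 < w) (hw2 : w < a + m)
    (hw : C a (a + 1) w) (h1 : w ≤ y) (h2 : y ≤ a + m) : TD m C (a + 1) y :=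
  span_D h hw1 hw2 (by omega) ((per2 h _ _ _).2 (h.symm _ _ _ hw)) h1 h2

/-- transfer, first form (`u < x`).  PROOF.  `coD` with base `c + 1` and `u < x < c + m`:
`C (c+1) (c+m) u` gives `C (c+1) x u` or `C (c+1) (c+m) x`; the second is `C c (c+1) x`. -/
theorem transfer1 (h : Sys m C) {c u x : ℤ} (h1 : c + 1 < u) (h2 : u < x) (h3 : x < c + m)
    (hu : C c (c + 1) u) (hx : ¬ C c (c + 1) x) : C (c + 1) x u := by
  rcases h.coD (c + 1) u x (c + m) h1 h2 h3 (by omega)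
    ((per2 h _ _ _).2 (h.symm _ _ _ hu)) with h4 | h4
  · exact h4
  · exact absurd (h.symm _ _ _ ((per2 h _ _ _).1 h4)) hx

/-- transfer, second form (`x < u`).  PROOF.  `coU` with base `c` and `c + 1 < x < u`. -/
theorem transfer2 (h : Sys m C) {c u x : ℤ} (h1 : c + 1 < x) (h2 : x < u) (h3 : u < c + m)
    (hu : C c (c + 1) u) (hx : ¬ C c (c + 1) x) : C c x u := by
  rcases h.coU c (c + 1) x u (by omega) h1 h2 h3 hu with h4 | h4
  · exact absurd h4 hx
  · exact h4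

end H40C
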